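import Pool.Agent.Lib.BSP.Final

/-!
# Module BSP.Card: the number of conditions

A condition is determined by an enumeration of its domain and by the masses of countably many cylinders.
-/

set_option autoImplicit false

open Set MeasureTheory Cardinal
open scoped ENNReal

namespace Pool.Agent.Lib.BSP

universe u

namespace CardAux

variable {T : Type u}

/-- an enumeration of a countable set by the natural numbers -/
theorem exists_enum (A : Set T) (hA : A.Countable) : ∃ e : ℕ → Option T, ∀ t, t ∈ A ↔ ∃ i, e i = some t := by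
  classical
  rcases A.eq_empty_or_nonempty with rfl | hne
  · exact ⟨fun _ => none, fun t => by simp⟩
  · obtain ⟨f, hf⟩ := hA.exists_eq_range hne
    refine ⟨fun i => some (f i), fun t => ?_⟩
    rw [hf]
    simp

/-- finite cylinders -/
def cyl (l : List (T × ℕ)) : Set (T → ℕ) := {f | ∀ x ∈ l, f x.1 = x.2}

theorem measurable_cyl (l : List (T × ℕ)) : MeasurableSet (cyl l) := by
  have : cyl l = ⋂ x ∈ {x | x ∈ l}, {f : T → ℕ | f x.1 = x.2} := by
    ext f
    simp [cyl]
  rw [this]
  exact MeasurableSet.biInter (l.finite_toSet.countable) (fun x _ => measurableSet_val x.1 {x.2})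

theorem gen_cyl : (MeasurableSpace.pi : MeasurableSpace (T → ℕ)) =
    MeasurableSpace.generateFrom (range (cyl : List (T × ℕ) → Set (T → ℕ))) := by
  refine le_antisymm ?_ ?_
  · refine iSup_le fun t => ?_
    rintro E ⟨S, -, rfl⟩
    have : (fun f : T → ℕ => f t) ⁻¹' S = ⋃ k ∈ S, cyl [(t, k)] := by
      ext f
      simp [cyl]
    rw [this]
    refine MeasurableSet.biUnion (to_countable S) (fun k _ => ?_)
    exact MeasurableSpace.measurableSet_generateFrom ⟨_, rfl⟩
  · refine MeasurableSpace.generateFrom_le ?_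
    rintro E ⟨l, rfl⟩
    exact measurable_cyl l

theorem pi_cyl : IsPiSystem (range (cyl : List (T × ℕ) → Set (T → ℕ))) := by
  rintro E ⟨l, rfl⟩ F ⟨l', rfl⟩ -
  refine ⟨l ++ l', ?_⟩
  ext f
  simp only [cyl, mem_ofPred_eq, List.mem_append, mem_inter_iff]
  constructor
  · intro h
    exact ⟨fun x hx => h x (Or.inl hx), fun x hx => h x (Or.inr hx)⟩
  · rintro ⟨h1, h2⟩ x (hx | hx)
    · exact h1 x hx
    · exact h2 x hx

/-- the coded cylinder -/
def ccyl (e : ℕ → Option T) (l : List (ℕ × ℕ)) : Set (T → ℕ) :=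
  {f | ∀ x ∈ l, ∀ t, e x.1 = some t → f t = x.2}

theorem code (A : Set T) (e : ℕ → Option T) (he : ∀ t, t ∈ A ↔ ∃ i, e i = some t) (l : List (T × ℕ)) :
    rho A ⁻¹' cyl l = ∅ ∨ ∃ l' : List (ℕ × ℕ), rho A ⁻¹' cyl l = ccyl e l' := by
  induction l with
  | nil =>
    refine Or.inr ⟨[], ?_⟩
    ext f
    simp [cyl, ccyl]
  | cons x l ih =>
    have hsplit : rho A ⁻¹' cyl (x :: l) = {f | rho A f x.1 = x.2} ∩ rho A ⁻¹' cyl l := by
      ext f
      simp [cyl]
    rcases ih with h | ⟨l', h⟩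
    · left
      rw [hsplit, h, inter_empty]
    · by_cases hx : x.1 ∈ A
      · right
        obtain ⟨i, hi⟩ := (he x.1).1 hx
        refine ⟨(i, x.2) :: l', ?_⟩
        rw [hsplit, h]
        ext f
        simp only [ccyl, mem_inter_iff, mem_ofPred_eq, List.mem_cons, rho_mem hx]
        constructor
        · rintro ⟨h1, h2⟩ y (rfl | hy) t ht
          · simp only [hi, Option.some.injEq] at ht
            subst ht
            exact h1
          · exact h2 y hy t ht
        · intro h1
          exact ⟨h1 (i, x.2) (Or.inl rfl) x.1 hi, fun y hy => h1 y (Or.inr hy)⟩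
      · by_cases h0 : x.2 = 0
        · right
          refine ⟨l', ?_⟩
          rw [hsplit, h]
          ext f
          simp [rho_not hx, h0]
        · left
          rw [hsplit]
          ext f
          simp only [mem_inter_iff, mem_ofPred_eq, rho_not hx, mem_empty_iff_false, iff_false, not_and]
          intro h1
          exact absurd h1.symm h0

theorem meas_eq {A : Set T} {μ ν : Measure (T → ℕ)} [IsFiniteMeasure μ]
    (hμ : ∀ t ∉ A, μ {f | f t ≠ 0} = 0) (hν : ∀ t ∉ A, ν {f | f t ≠ 0} = 0) (e : ℕ → Option T)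
    (he : ∀ t, t ∈ A ↔ ∃ i, e i = some t) (h : ∀ l, μ (ccyl e l) = ν (ccyl e l)) : μ = ν := by
  refine ext_of_generate_finite _ gen_cyl pi_cyl ?_ ?_
  · rintro E ⟨l, rfl⟩
    rw [← map_rho hμ, ← map_rho hν, Measure.map_apply (measurable_rho A) (measurable_cyl l),
      Measure.map_apply (measurable_rho A) (measurable_cyl l)]
    rcases code A e he l with h1 | ⟨l', h1⟩
    · rw [h1, measure_empty, measure_empty]
    · rw [h1]
      exact h l'
  · have := h []
    simpa [ccyl] using this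

end CardAux

open CardAux in
theorem card_cond (T : Type u) [PartialOrder T] : #(Cond T) ≤ (max ℵ₀ #T) ^ (ℵ₀ : Cardinal.{u}) := by
  classical
  choose e he using fun p : Cond T => exists_enum p.A p.cnt
  let Φ : Cond T → (ℕ → Option T) × (List (ℕ × ℕ) → ℝ≥0∞) := fun p => (e p, fun l => p.μ (ccyl (e p) l))
  have hinj : Function.Injective Φ := by
    intro p q h
    have h1 : e p = e q := congrArg Prod.fst h
    have h2 : ∀ l, p.μ (ccyl (e p) l) = q.μ (ccyl (e q) l) := fun l => congrFun (congrArg Prod.snd h) l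
    have hA : p.A = q.A := by
      ext t
      rw [he p, he q, h1]
    have : IsFiniteMeasure p.μ := ⟨lt_of_le_of_ne le_top p.fin⟩
    have hμ : p.μ = q.μ := by
      refine meas_eq (A := p.A) p.sup ?_ (e p) (he p) ?_
      · rw [hA]; exact q.sup
      · intro l
        rw [h2 l, h1]
    cases p
    cases q
    simp only at hA hμ
    subst hA
    subst hμ
    rfl
  refine (mk_le_of_injective hinj).trans ?_
  rw [mk_prod]
  have hκ : ℵ₀ ≤ max ℵ₀ #T := le_max_left _ _
  have hκ1 : (1 : Cardinal) ≤ max ℵ₀ #T := one_lt_aleph0.le.trans hκ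
  have h1 : #(ℕ → Option T) ≤ (max ℵ₀ #T) ^ (ℵ₀ : Cardinal.{u}) := by
    have : #(ℕ → Option T) = #(Option T) ^ (ℵ₀ : Cardinal.{u}) := by
      simp
    rw [this]
    refine power_le_power_right ?_
    rw [mk_option]
    refine (add_le_max _ _).trans ?_
    simp only [max_le_iff]
    exact ⟨⟨le_max_right _ _, hκ1⟩, hκ⟩
  have h2 : lift.{u} #(List (ℕ × ℕ) → ℝ≥0∞) ≤ (max ℵ₀ #T) ^ (ℵ₀ : Cardinal.{u}) := by
    have hc : #(List (ℕ × ℕ) → ℝ≥0∞) ≤ 𝔠 := by
      have h3 : #(List (ℕ × ℕ) → ℝ≥0∞) = #ℝ≥0∞ ^ (ℵ₀ : Cardinal.{0}) := by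
        simp
      rw [h3]
      have h4 : #ℝ≥0∞ ≤ 𝔠 := by
        have h5 : #ℝ≥0∞ ≤ #(Option ℝ) := by
          refine mk_le_of_injective (f := fun x : ℝ≥0∞ => if x = ⊤ then none else some x.toReal) ?_
          intro x y hxy
          by_cases hx : x = ⊤ <;> by_cases hy : y = ⊤
          · rw [hx, hy]
          · simp [hx, hy] at hxy
          · simp [hx, hy] at hxy
          · simp only [hx, hy, if_false, Option.some.injEq] at hxy
            exact (ENNReal.toReal_eq_toReal_iff' hx hy).1 hxy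
        refine h5.trans ?_
        rw [mk_option, mk_real]
        exact (add_one_eq (aleph0_le_continuum)).le
      calc #ℝ≥0∞ ^ (ℵ₀ : Cardinal.{0}) ≤ 𝔠 ^ (ℵ₀ : Cardinal.{0}) := power_le_power_right h4
        _ = 𝔠 := continuum_power_aleph0
    calc lift.{u} #(List (ℕ × ℕ) → ℝ≥0∞) ≤ lift.{u} 𝔠 := lift_le.2 hc
      _ = 2 ^ (ℵ₀ : Cardinal.{u}) := by rw [lift_continuum, two_power_aleph0]
      _ ≤ (max ℵ₀ #T) ^ (ℵ₀ : Cardinal.{u}) := power_le_power_right ((nat_lt_aleph0 2).le.trans hκ)
  calc lift.{0} #(ℕ → Option T) * lift.{u} #(List (ℕ × ℕ) → ℝ≥0∞)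
      ≤ (max ℵ₀ #T) ^ (ℵ₀ : Cardinal.{u}) * (max ℵ₀ #T) ^ (ℵ₀ : Cardinal.{u}) := by
        refine mul_le_mul' ?_ h2
        rw [lift_id']
        exact h1
    _ = (max ℵ₀ #T) ^ (ℵ₀ : Cardinal.{u}) := by
        refine mul_eq_self ?_
        exact hκ.trans (self_le_power _ one_lt_aleph0.le)

end Pool.Agent.Lib.BSP
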