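import Pool.Agent.Lib.BSP.ExhA

/-!
# Module BSP.ExhB: exhaustion of a condition by finitely many pieces in `D` (second half of L4)

`exhaust`. Proof. Call `E` good if it is measurable, `p.μ E ≠ 0` and there is `q ∈ D`, `q ≤ p` with `q.μ.map (rho p.A) = p.μ.restrict E`. By Zorn
(`zorn_subset`, the union of a chain of such families is such a family) there is a maximal family `M : Set (Set (T → ℕ))` of pairwise disjoint good sets.
`M` is countable since `p.μ` is finite (`Measure.countable_meas_pos_of_disjoint_iUnion` applied to the family indexed by `↥M`). `U = ⋃₀ M` is measurable,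
and `p.μ Uᶜ = 0`: otherwise `good_below` with `F = Uᶜ` gives a good `E ⊆ Uᶜ`, and `insert E M` contradicts maximality (`E` is nonempty
because `p.μ E ≠ 0`, so `E ∉ M`). So `p.μ univ = ∑' E : M, p.μ E` (`measure_sUnion`). With `ε' = min ε (p.μ univ / 2)` (nonzero) there is a finite
`s : Finset M` with `p.μ univ ≤ ∑ E ∈ s, p.μ E + ε'` (`ENNReal.tsum_eq_iSup_sum`, `lt_iSup_iff`, `p.μ univ - ε' < p.μ univ`); `s` is nonempty because
`p.μ univ ≤ ε'` is false. Take `ι = Fin s.card` (via `s.equivFin`) and `q i` the piece of the corresponding `E`. Then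
`∑ i, (q i).μ.map (rho p.A) = ∑ p.μ.restrict E ≤ p.μ` since the sets are disjoint (`Measure.le_iff`, `measure_biUnion_finset` or
`measure_iUnion` on the sets `S ∩ E`), and `(q i).μ univ = p.μ E` (`map_rho_univ`).
-/

set_option autoImplicit false

open Set MeasureTheory
open scoped ENNReal

namespace Pool.Agent.Lib.BSP

universe u

variable {T : Type u} [PartialOrder T]

namespace ExhBAux

/-- good events -/
def Good (D : Set (Cond T)) (p : Cond T) (E : Set (T → ℕ)) : Prop :=
  MeasurableSet E ∧ p.μ E ≠ 0 ∧ ∃ q ∈ D, q ≤ p ∧ q.μ.map (rho p.A) = p.μ.restrict E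

theorem exists_max (D : Set (Cond T)) (p : Cond T) : ∃ M : Set (Set (T → ℕ)),
    Maximal (fun M => M ∈ {M : Set (Set (T → ℕ)) | (∀ E ∈ M, Good D p E) ∧ M.PairwiseDisjoint id}) M := by
  refine zorn_subset _ ?_
  intro c hc hch
  refine ⟨⋃₀ c, ⟨?_, ?_⟩, fun s hs => subset_sUnion_of_mem hs⟩
  · rintro E ⟨s, hs, hE⟩
    exact (hc hs).1 E hE
  · exact (Set.pairwiseDisjoint_sUnion hch.directedOn).2 (fun s hs => (hc hs).2)

end ExhBAux

open ExhBAux in
theorem exhaust {D : Set (Cond T)} (hD : OpenDense D) (p : Cond T) {ε : ℝ≥0∞} (hε : ε ≠ 0) :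
    ∃ n : ℕ, 0 < n ∧ ∃ q : Fin n → Cond T, (∀ i, q i ∈ D) ∧ (∀ i, q i ≤ p) ∧
      ∑ i, (q i).μ.map (rho p.A) ≤ p.μ ∧ p.μ univ ≤ ∑ i, (q i).μ univ + ε := by
  classical
  have : IsFiniteMeasure p.μ := ⟨lt_of_le_of_ne le_top p.fin⟩
  obtain ⟨M, hM⟩ := exists_max D p
  have hgood := hM.prop.1
  have hdisj := hM.prop.2
  have hcnt : M.Countable := by
    have h1 := Measure.countable_meas_pos_of_disjoint_iUnion (μ := p.μ) (As := fun E : M => (E : Set (T → ℕ)))
      (fun E => (hgood E E.2).1) (fun E F hEF => hdisj E.2 F.2 (fun h => hEF (Subtype.ext h)))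
    have h2 : {i : M | 0 < p.μ (i : Set (T → ℕ))} = univ := by
      ext E
      simp only [mem_ofPred_eq, mem_univ, iff_true]
      exact pos_iff_ne_zero.2 (hgood E E.2).2.1
    rw [h2] at h1
    have := h1.image (Subtype.val)
    rwa [image_univ, Subtype.range_coe] at this
  have hmeas : MeasurableSet (⋃₀ M) := MeasurableSet.sUnion hcnt (fun E hE => (hgood E hE).1)
  have hnull : p.μ (⋃₀ M)ᶜ = 0 := by
    by_contra h0
    obtain ⟨E, hE, hEs, hE0, q, hqD, hq, hqm⟩ := good_below hD p hmeas.compl h0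
    have hEg : Good D p E := ⟨hE, hE0, q, hqD, hq, hqm⟩
    have hne : E.Nonempty := by
      rcases E.eq_empty_or_nonempty with rfl | h
      · simp at hE0
      · exact h
    have hins : insert E M ∈ {M : Set (Set (T → ℕ)) | (∀ E ∈ M, Good D p E) ∧ M.PairwiseDisjoint id} := by
      refine ⟨?_, ?_⟩
      · rintro F (rfl | hF)
        · exact hEg
        · exact hgood F hF
      · refine hdisj.insert ?_
        intro F hF _
        exact Set.disjoint_left.2 (fun x hx hxF => hEs hx ⟨F, hF, hxF⟩)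
    have := hM.le_of_ge hins (subset_insert _ _)
    have hEM : E ∈ M := this (mem_insert _ _)
    obtain ⟨x, hx⟩ := hne
    exact hEs hx ⟨E, hEM, hx⟩
  have htot : p.μ univ = ∑' E : M, p.μ (E : Set (T → ℕ)) := by
    rw [← measure_sUnion hcnt (fun E hE F hF h => hdisj hE hF h) (fun E hE => (hgood E hE).1)]
    rw [← measure_add_measure_compl hmeas, hnull, add_zero]
  have hp0 : p.μ univ ≠ 0 := by
    intro h
    exact p.ne (Measure.measure_univ_eq_zero.1 h)
  set ε' := min ε (p.μ univ / 2) with hε'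
  have hε'0 : ε' ≠ 0 := by
    rw [hε']
    have : p.μ univ / 2 ≠ 0 := by
      simp [hp0]
    rcases le_total ε (p.μ univ / 2) with h | h
    · rw [min_eq_left h]; exact hε
    · rw [min_eq_right h]; exact this
  have hlt : p.μ univ - ε' < p.μ univ := ENNReal.sub_lt_self p.fin hp0 hε'0
  obtain ⟨s, hs⟩ : ∃ s : Finset M, p.μ univ - ε' < ∑ E ∈ s, p.μ (E : Set (T → ℕ)) := by
    rw [htot, ENNReal.tsum_eq_iSup_sum] at hlt
    rw [htot]
    rw [ENNReal.tsum_eq_iSup_sum]
    exact lt_iSup_iff.1 hlt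
  have hle : p.μ univ ≤ ∑ E ∈ s, p.μ (E : Set (T → ℕ)) + ε := by
    refine (tsub_le_iff_right.1 hs.le).trans ?_
    gcongr
    exact min_le_left _ _
  have hsne : 0 < s.card := by
    rw [Finset.card_pos]
    by_contra h
    rw [Finset.not_nonempty_iff_eq_empty] at h
    rw [h] at hs
    simp at hs
  choose Q hQD hQp hQm using fun E : M => (hgood E E.2).2.2
  refine ⟨s.card, hsne, fun i => Q (s.equivFin.symm i).1, fun i => hQD _, fun i => hQp _, ?_, ?_⟩
  · rw [Measure.le_iff]
    intro S hS
    rw [Measure.coe_finsetSum, Finset.sum_apply]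
    have h1 : ∀ i : Fin s.card, ((Q (s.equivFin.symm i).1).μ.map (rho p.A)) S =
        p.μ (S ∩ ((s.equivFin.symm i).1 : Set (T → ℕ))) := by
      intro i
      rw [hQm, Measure.restrict_apply hS]
    rw [Finset.sum_congr rfl (fun i _ => h1 i)]
    rw [← measure_biUnion_finset]
    · exact measure_mono (iUnion₂_subset fun i _ => inter_subset_left)
    · intro i _ j _ hij
      have hne : ((s.equivFin.symm i).1 : Set (T → ℕ)) ≠ ((s.equivFin.symm j).1 : Set (T → ℕ)) := by
        intro h
        apply hij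
        have := Subtype.ext (Subtype.ext h)
        exact s.equivFin.symm.injective this
      exact (hdisj (s.equivFin.symm i).1.2 (s.equivFin.symm j).1.2 hne).mono inter_subset_right
        inter_subset_right
    · intro i _
      exact hS.inter (hgood _ (s.equivFin.symm i).1.2).1
  · have h2 : ∑ i : Fin s.card, (Q (s.equivFin.symm i).1).μ univ = ∑ E ∈ s, p.μ (E : Set (T → ℕ)) := by
      have h3 : ∀ E : M, (Q E).μ univ = p.μ (E : Set (T → ℕ)) := by
        intro E
        rw [← map_rho_univ p.A, hQm, Measure.restrict_apply MeasurableSet.univ, univ_inter]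
      rw [← Finset.sum_coe_sort s (fun E => p.μ (E : Set (T → ℕ)))]
      rw [Finset.sum_congr rfl (fun i _ => h3 (s.equivFin.symm i).1)]
      exact Equiv.sum_comp s.equivFin.symm (fun E : s => p.μ ((E.1 : M) : Set (T → ℕ)))
    rw [h2]
    exact hle

end Pool.Agent.Lib.BSP
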