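import Pool.Agent.Lib.BSP.FreeSum
import Pool.Agent.Lib.BSP.ExhB

/-!
# Module BSP.CopyA: one copy (first half of L6)

`one_copy`. Proof. Put `A' = p.A ∪ {s | ∃ t ∈ C, s ≤ t}` (countable by `hT.cnt`, a lower set) and `ε₁ = ε / 3`. By `free` there is `p' ≤ p` with `p'.A = A'`, marginal `≤ p.μ`,
loss `≤ ε₁`, values on `A' \ p.A` at least `K`. By `exhaust` there are `q' i ∈ D`, `q' i ≤ p'`, `i : Fin n`, `0 < n`, with
`∑ (q' i).μ.map (rho A') ≤ p'.μ` and loss `≤ ε₁`. Put `B = ⋃ i, (q' i).A` (countable lower set). By `free` (with `N = K`, loss `ε₁ / n`) there are `q i ≤ q' i` with domain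
`B` and marginal `≤ (q' i).μ`; they are in `D`. Let `r` be the sum (`sum_cond`), `r.A = B`, `r ≤ p'` and `r ≤ p`.
`r.μ.map (rho A') = ∑ (q i).μ.map (rho A') = ∑ ((q i).μ.map (rho (q' i).A)).map (rho A') ≤ ∑ (q' i).μ.map (rho A') ≤ p'.μ`; mass: `p'.μ univ ≤ ∑ (q' i).μ univ + ε₁ ≤
∑ ((q i).μ univ + ε₁ / n) + ε₁`. So `Fine D p' r (ε₁ + ε₁)`, and `Fine D p r ε` by `fine_trans`.
The finite set: `r ≤ p'` gives `Thin B (B \ A') r.μ`. For every `k < K` let `a k` be the finite subset of `B \ A'` for `k` and `η / K`, and `a` the union of the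
`a k`. `a` is disjoint from `C ⊆ A'`. Let `t ∉ B`, above no element of `a`. `hitB (B \ p.A) t K = hitB (B \ A') t K ∪ hitB (A' \ p.A) t K`
(`B \ p.A = (B \ A') ∪ (A' \ p.A)`, `hitB_union`); the first has `r.μ`-measure `≤ ∑ over k < K of r.μ (hit (B \ A') t k) ≤ K * (η / K) ≤ η` (`hitB_eq`); the second is null: it is a
countable union of events `{f | f s < K}`, `s ∈ A' \ p.A`, and `r.μ.map (rho A') ≪ p'.μ` (`meas_zero_of_map`).
-/

set_option autoImplicit false

open Set MeasureTheory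
open scoped ENNReal

namespace Pool.Agent.Lib.BSP

universe u

variable {T : Type u} [PartialOrder T]

theorem one_copy (hT : WideTree T) {D : Set (Cond T)} (hD : OpenDense D) (p : Cond T) {C : Set T}
    (hC : C.Countable) (K : ℕ) {η ε : ℝ≥0∞} (hη : η ≠ 0) (hε : ε ≠ 0) :
    ∃ r : Cond T, Fine D p r ε ∧ ∃ a : Finset T, (∀ s ∈ a, s ∈ r.A ∧ s ∉ C) ∧
      ∀ t ∉ r.A, (∀ s ∈ a, ¬ s < t) → r.μ (hitB (r.A \ p.A) t K) ≤ η := by
  classical
  set A' : Set T := p.A ∪ {s | ∃ t ∈ C, s ≤ t} with hA'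
  have hA'c : A'.Countable := by
    refine p.cnt.union ?_
    have h1 : {s : T | ∃ t ∈ C, s ≤ t} = ⋃ t ∈ C, Iic t := by
      ext s; simp
    rw [h1]
    refine hC.biUnion fun t _ => ?_
    have h2 : (Iic t : Set T) ⊆ insert t (Iio t) := by
      intro s hs
      rcases eq_or_lt_of_le (show s ≤ t from hs) with h | h
      · exact Or.inl h
      · exact Or.inr h
    exact ((hT.cnt t).insert t).mono h2
  have hA'l : IsLowerSet A' := by
    intro a b hba ha
    rcases ha with ha | ⟨t, ht, hat⟩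
    · exact Or.inl (p.low hba ha)
    · exact Or.inr ⟨t, ht, hba.trans hat⟩
  have hCA' : C ⊆ A' := fun s hs => Or.inr ⟨s, hs, le_refl s⟩
  set ε₁ : ℝ≥0∞ := ε / 3 with hε₁d
  have hε₁ : ε₁ ≠ 0 := ENNReal.div_ne_zero.2 ⟨hε, by norm_num⟩
  obtain ⟨p', hp'p, hp'A, hp'marg, hp'mass, hp'val⟩ := free p hA'c hA'l subset_union_left K hε₁
  obtain ⟨n, hn, q', hq'D, hq'p', hq'marg, hq'mass⟩ := exhaust hD p' hε₁
  have hne : Nonempty (Fin n) := ⟨⟨0, hn⟩⟩
  set B : Set T := ⋃ i, (q' i).A with hB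
  have hBc : B.Countable := countable_iUnion fun i => (q' i).cnt
  have hBl : IsLowerSet B := isLowerSet_iUnion fun i => (q' i).low
  have hδ : ε₁ / (Fintype.card (Fin n) : ℝ≥0∞) ≠ 0 := OrdBAux.div_ne hε₁
  have hfree := fun i => free (q' i) hBc hBl (subset_iUnion (fun i => (q' i).A) i) K hδ
  choose q hqq' hqA hqmarg hqmass hqval using hfree
  obtain ⟨r, hrA, hrμ, hrle⟩ := sum_cond q hqA
  have hrp' : r ≤ p' := hrle p' fun i => (hqq' i).trans (hq'p' i)
  have hmarg : r.μ.map (rho p'.A) ≤ p'.μ := by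
    refine le_trans ?_ hq'marg
    refine Measure.le_iff.2 fun E hE => ?_
    rw [Measure.map_apply (measurable_rho _) hE, hrμ, Measure.finsetSum_apply,
      Measure.finsetSum_apply]
    refine Finset.sum_le_sum fun i _ => ?_
    have h1 : (q i).μ.map (rho p'.A) ≤ (q' i).μ.map (rho p'.A) := by
      rw [← map_rho_map (le_def.1 (hq'p' i)).1 (q i).μ]
      exact Measure.map_mono (hqmarg i) (measurable_rho _)
    have h2 := h1 E
    rw [Measure.map_apply (measurable_rho _) hE] at h2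
    exact h2
  have hmass : p'.μ univ ≤ r.μ univ + (ε₁ + ε₁) := by
    calc p'.μ univ ≤ ∑ i, (q' i).μ univ + ε₁ := hq'mass
      _ ≤ ∑ i, ((q i).μ univ + ε₁ / (Fintype.card (Fin n) : ℝ≥0∞)) + ε₁ := by
          gcongr with i
          exact hqmass i
      _ = (∑ i, (q i).μ univ + ∑ _i : Fin n, ε₁ / (Fintype.card (Fin n) : ℝ≥0∞)) + ε₁ := by
          rw [Finset.sum_add_distrib]
      _ ≤ (∑ i, (q i).μ univ + ε₁) + ε₁ := by
          gcongr
          exact OrdBAux.sum_le_of _ _ fun i => le_refl _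
      _ = r.μ univ + (ε₁ + ε₁) := by
          rw [hrμ, Measure.finsetSum_apply, add_assoc]
  have hfine' : Fine D p' r (ε₁ + ε₁) :=
    ⟨hrp', ⟨Fin n, inferInstance, q, fun i => ⟨hD.1 (q' i) (hq'D i) (q i) (hqq' i), by rw [hqA i, hrA],
      (hqq' i).trans (hq'p' i)⟩, hrμ⟩, hmarg, hmass⟩
  have hfine : Fine D p r ε := by
    have h := fine_trans hfine' hp'p hp'marg hp'mass
    have h3 : ε₁ + (ε₁ + ε₁) = ε := by
      rw [← add_assoc, hε₁d, ENNReal.add_thirds]
    rwa [h3] at h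
  refine ⟨r, hfine, ?_⟩
  obtain ⟨hsub, hac, hthin⟩ := le_def.1 hrp'
  have hηK : η / (K : ℝ≥0∞) ≠ 0 := ENNReal.div_ne_zero.2 ⟨hη, ENNReal.natCast_ne_top K⟩
  choose a ha1 ha2 using fun k => hthin k (η / (K : ℝ≥0∞)) hηK
  refine ⟨(Finset.range K).biUnion a, ?_, ?_⟩
  · intro s hs
    obtain ⟨k, -, hk⟩ := Finset.mem_biUnion.1 hs
    have h1 := ha1 k s hk
    refine ⟨h1.1, fun hsC => h1.2 ?_⟩
    rw [hp'A]
    exact hCA' hsC
  · intro t ht hs
    have hsubset : hitB (r.A \ p.A) t K ⊆ hitB (r.A \ p'.A) t K ∪ hitB (p'.A \ p.A) t K := by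
      rw [← hitB_union]
      rintro f ⟨s, hs1, hs2, hs3⟩
      refine ⟨s, ?_, hs2, hs3⟩
      by_cases h : s ∈ p'.A
      · exact Or.inr ⟨h, hs1.2⟩
      · exact Or.inl ⟨hs1.1, h⟩
    have hfirst : r.μ (hitB (r.A \ p'.A) t K) ≤ η := by
      rw [hitB_eq]
      calc r.μ (⋃ k ∈ Finset.range K, hit (r.A \ p'.A) t k)
          ≤ ∑ k ∈ Finset.range K, r.μ (hit (r.A \ p'.A) t k) := measure_biUnion_finset_le _ _
        _ ≤ ∑ _k ∈ Finset.range K, η / (K : ℝ≥0∞) := by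
            refine Finset.sum_le_sum fun k hk => ha2 k t ht fun s hsa => hs s ?_
            exact Finset.mem_biUnion.2 ⟨k, hk, hsa⟩
        _ = (K : ℝ≥0∞) * (η / (K : ℝ≥0∞)) := by
            rw [Finset.sum_const, Finset.card_range, nsmul_eq_mul]
        _ ≤ η := ENNReal.mul_div_le
    have hsecond : r.μ (hitB (p'.A \ p.A) t K) = 0 := by
      refine meas_zero_of_map hac (measurableSet_hitB (p'.cnt.mono sdiff_subset) t K)
        (fun f => rho_mem_hitB sdiff_subset t K f) ?_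
      have h1 : hitB (p'.A \ p.A) t K ⊆ ⋃ s ∈ p'.A \ p.A, {f : T → ℕ | f s < K} := by
        rintro f ⟨s, hs1, -, hs3⟩
        exact mem_biUnion hs1 hs3
      refine measure_mono_null h1 ?_
      rw [measure_biUnion_null_iff (p'.cnt.mono sdiff_subset)]
      intro s hs
      refine hp'val s ?_
      rw [← hp'A]
      exact hs
    calc r.μ (hitB (r.A \ p.A) t K)
        ≤ r.μ (hitB (r.A \ p'.A) t K ∪ hitB (p'.A \ p.A) t K) := measure_mono hsubset
      _ ≤ r.μ (hitB (r.A \ p'.A) t K) + r.μ (hitB (p'.A \ p.A) t K) := measure_union_le _ _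
      _ ≤ η + 0 := by rw [hsecond]; gcongr
      _ = η := add_zero η

end Pool.Agent.Lib.BSP
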