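import Pool.Agent.Lib.BSP.Defs

/-!
# Module BSP.TreeL: many pairwise incomparable finite sets (L5 of bounding_specialisation.md)

Call a family `G` of finite sets unbounded if every countable `C` is disjoint from some `a ∈ G`. Call `a, b` incomparable if no element of `a` is
comparable with (or equal to) an element of `b`.

Key claim: if `G` is unbounded there is `a ∈ G` such that `{b ∈ G | a, b incomparable}` is unbounded. Then `tree_lemma` follows by
induction on `N` (for all unbounded families): take `a`, apply the induction hypothesis to `{b ∈ G | a, b incomparable}`, `Fin.cons`.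

Proof of the key claim. If `∅ ∈ G` take `a = ∅`. Otherwise suppose that for each `a ∈ G` there is a countable `C a` such that every `b ∈ G` disjoint from
`C a` is comparable with `a`; enlarging `C a` we may assume that it contains all `s` with `s ≤ t` for some `t ∈ a` (`hT.cnt`). So for
`b ∈ G` disjoint from `C a` there are `s ∈ a`, `t ∈ b` with `s < t`.
Let `H` be a maximal pairwise disjoint subfamily of `G` (Zorn, `zorn_subset`). `H` is uncountable: otherwise its union is
countable and some `a ∈ G` is disjoint from it; `a` is nonempty, so `a ∉ H`, contradicting maximality. For some `m` the family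
`H' = {a ∈ H | a.card = m}` is uncountable. For `a ∈ H'` only countably many `b ∈ H'` meet `C a` (`H` is pairwise disjoint). Let `u` be an ultrafilter on
the type `↥H'` finer than `Filter.cocountable` (`Ultrafilter.of`, `NeBot` because `H'` is uncountable). Enumerate each `a ∈ H'` by
`Fin m` (`Finset.equivFinOfCardEq`), `a = {x a i | i : Fin m}`. For each `a`, for `u`-almost all `b`, there are `i, j` with
`x a i < x b j`; as `Fin m × Fin m` is finite there is `(i, j)` (depending on `a`) with `∀ᶠ b in u, x a i < x b j`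
(`Ultrafilter.eventually_exists_iff` or `Ultrafilter.finite_biUnion_mem_iff`). Some `(i, j)` serves uncountably many `a`, say all `a ∈ K`. For
`a, a' ∈ K` there is a common `b` with `x a i < x b j`, `x a' i < x b j`, so `x a i`, `x a' i` are comparable (`hT.comp`). So `{x a i | a ∈ K}` is
a chain; it is uncountable, since `a ↦ x a i` is injective on `K` (pairwise disjoint). This contradicts `hT.nochain`.
-/

set_option autoImplicit false

open Set

namespace Pool.Agent.Lib.BSP

universe u

variable {T : Type u} [PartialOrder T]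

namespace TreeLAux

/-- `G` is unbounded: every countable set is disjoint from a member of `G` -/
private def Unb (G : Set (Finset T)) : Prop :=
  ∀ C : Set T, C.Countable → ∃ a ∈ G, ∀ s ∈ a, s ∉ C

/-- no element of `a` is comparable with, or equal to, an element of `b` -/
private def Inc (a b : Finset T) : Prop := ∀ s ∈ a, ∀ t ∈ b, ¬ s < t ∧ ¬ t < s ∧ s ≠ t

private theorem iic_countable (hT : WideTree T) (t : T) : (Iic t).Countable := by
  rw [← Iio_insert]
  exact (hT.cnt t).insert t

/-- enlarging the bounding set -/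
private theorem enlarge (hT : WideTree T) (G : Set (Finset T)) (a : Finset T)
    (h : ¬ Unb {b ∈ G | Inc a b}) :
    ∃ C : Set T, C.Countable ∧ ∀ b ∈ G, (∀ t ∈ b, t ∉ C) → ∃ s ∈ a, ∃ t ∈ b, s < t := by
  unfold Unb at h
  push Not at h
  obtain ⟨C, hC, hb⟩ := h
  refine ⟨C ∪ ⋃ t ∈ (a : Set T), Iic t, ?_, ?_⟩
  · exact hC.union (a.countable_toSet.biUnion fun t _ => iic_countable hT t)
  · intro b hbG hdis
    by_contra hno
    push Not at hno
    have hinc : Inc a b := by
      intro s hs t ht
      have h1 : ¬ t ≤ s := by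
        intro hts
        apply hdis t ht
        right
        exact mem_biUnion (show s ∈ (a : Set T) from hs) hts
      exact ⟨hno s hs t ht, fun h => h1 h.le, fun h => h1 h.symm.le⟩
    obtain ⟨s, hs, hsC⟩ := hb b ⟨hbG, hinc⟩
    exact hdis s hs (Or.inl hsC)

/-- a maximal pairwise disjoint subfamily is uncountable -/
private theorem big_disjoint (G : Set (Finset T)) (hG : Unb G) (h0 : ∅ ∉ G) :
    ∃ H : Set (Finset T), H ⊆ G ∧ (∀ a ∈ H, ∀ b ∈ H, ∀ s ∈ a, s ∈ b → a = b) ∧ ¬ H.Countable := by
  obtain ⟨H, hH⟩ := zorn_subset {H : Set (Finset T) | H ⊆ G ∧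
      ∀ a ∈ H, ∀ b ∈ H, ∀ s ∈ a, s ∈ b → a = b} (by
    intro c hc hch
    refine ⟨⋃₀ c, ⟨sUnion_subset fun H hH => (hc hH).1, ?_⟩, fun s hs => subset_sUnion_of_mem hs⟩
    rintro a ⟨A, hA, haA⟩ b ⟨B, hB, hbB⟩ s hsa hsb
    rcases hch.total hA hB with h | h
    · exact (hc hB).2 a (h haA) b hbB s hsa hsb
    · exact (hc hA).2 a haA b (h hbB) s hsa hsb)
  refine ⟨H, hH.prop.1, hH.prop.2, ?_⟩
  intro hcnt
  obtain ⟨a, haG, ha⟩ := hG (⋃ b ∈ H, (b : Set T))
    (hcnt.biUnion fun b _ => b.countable_toSet)
  have hdis : ∀ b ∈ H, ∀ s ∈ a, s ∉ b := by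
    intro b hb s hs hsb
    exact ha s hs (mem_biUnion hb (show s ∈ (b : Set T) from hsb))
  have hmem : insert a H ∈ {H : Set (Finset T) | H ⊆ G ∧
      ∀ a ∈ H, ∀ b ∈ H, ∀ s ∈ a, s ∈ b → a = b} := by
    refine ⟨insert_subset haG hH.prop.1, ?_⟩
    rintro b (rfl | hb) c (rfl | hc) s hsb hsc
    · rfl
    · exact absurd hsc (hdis c hc s hsb)
    · exact absurd hsb (hdis b hb s hsc)
    · exact hH.prop.2 b hb c hc s hsb hsc
  have haH : a ∈ H := hH.le_of_ge hmem (subset_insert a H) (mem_insert a H)
  have hne : a.Nonempty := by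
    rw [Finset.nonempty_iff_ne_empty]
    rintro rfl
    exact h0 haG
  obtain ⟨s, hs⟩ := hne
  exact hdis a haH s hs hs

/-- the key claim -/
private theorem key (hT : WideTree T) (G : Set (Finset T)) (hG : Unb G) :
    ∃ a ∈ G, Unb {b ∈ G | Inc a b} := by
  classical
  by_contra hcon
  push Not at hcon
  have h1 : ∀ a ∈ G, ∃ C : Set T, C.Countable ∧
      ∀ b ∈ G, (∀ t ∈ b, t ∉ C) → ∃ s ∈ a, ∃ t ∈ b, s < t :=
    fun a ha => enlarge hT G a (hcon a ha)
  have h0 : (∅ : Finset T) ∉ G := by
    intro h0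
    obtain ⟨C, hC, hb⟩ := h1 ∅ h0
    obtain ⟨b, hbG, hbC⟩ := hG C hC
    obtain ⟨s, hs, -⟩ := hb b hbG hbC
    exact absurd hs (Finset.notMem_empty s)
  obtain ⟨H, hHG, hdis, hunc⟩ := big_disjoint G hG h0
  have hTne : Nonempty T := by
    by_contra h
    rw [not_nonempty_iff] at h
    exact hunc (Set.to_countable H)
  -- a fixed cardinality
  have hm : ∃ m : ℕ, ¬ {a ∈ H | a.card = m}.Countable := by
    by_contra hno
    push Not at hno
    apply hunc
    refine (countable_iUnion hno).mono ?_
    intro a ha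
    exact mem_iUnion.2 ⟨a.card, ha, rfl⟩
  obtain ⟨m, hm⟩ := hm
  set H' : Set (Finset T) := {a ∈ H | a.card = m} with hH'
  have huncι : ¬ Countable ↥H' := fun h => hm (Set.countable_coe_iff.1 h)
  have hGι : ∀ a : ↥H', (a : Finset T) ∈ G := fun a => hHG a.2.1
  have hdι : ∀ a b : ↥H', ∀ s ∈ (a : Finset T), s ∈ (b : Finset T) → a = b :=
    fun a b s hs hs' => Subtype.ext (hdis a a.2.1 b b.2.1 s hs hs')
  choose C hCc hC using fun a : ↥H' => h1 a (hGι a)
  -- the ultrafilter
  have hbot : (Filter.cocountable : Filter ↥H').NeBot := by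
    rw [← Filter.empty_mem_iff_bot.not.trans Filter.neBot_iff.symm] 
    intro h
    rw [Filter.mem_cocountable, compl_empty, Set.countable_univ_iff] at h
    exact huncι h
  let u : Ultrafilter ↥H' := Ultrafilter.of Filter.cocountable
  have hu : (u : Filter ↥H') ≤ Filter.cocountable := Ultrafilter.of_le _
  have hdisj : ∀ a : ↥H', ∀ᶠ b : ↥H' in (u : Filter ↥H'), ∀ t ∈ (b : Finset T), t ∉ C a := by
    intro a
    apply hu
    rw [Filter.mem_cocountable]
    have hch : ∀ b : ↥H', b ∈ {b : ↥H' | ∀ t ∈ (b : Finset T), t ∉ C a}ᶜ →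
        ∃ t, t ∈ (b : Finset T) ∧ t ∈ C a := by
      intro b hb
      simp only [mem_compl_iff, mem_setOf_eq, not_forall, not_not] at hb
      obtain ⟨t, ht, htC⟩ := hb
      exact ⟨t, ht, htC⟩
    choose! f hf using hch
    refine Set.countable_of_injective_of_countable_image (f := f) ?_ ((hCc a).mono ?_)
    · intro b hb b' hb' hbb
      exact hdι b b' (f b) (hf b hb).1 (by rw [hbb]; exact (hf b' hb').1)
    · rintro _ ⟨b, hb, rfl⟩
      exact (hf b hb).2
  -- the enumeration
  let e : ∀ a : ↥H', ↥(a : Finset T) ≃ Fin m := fun a => Finset.equivFinOfCardEq a.2.2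
  let x : ↥H' → Fin m → T := fun a i => ((e a).symm i : T)
  have hx : ∀ (a : ↥H') (i : Fin m), x a i ∈ (a : Finset T) := fun a i => ((e a).symm i).2
  have hx' : ∀ (a : ↥H') (s : T), s ∈ (a : Finset T) → ∃ i, x a i = s := by
    intro a s hs
    refine ⟨e a ⟨s, hs⟩, ?_⟩
    simp [x]
  have hp : ∀ a : ↥H', ∃ p : Fin m × Fin m, ∀ᶠ b in (u : Filter ↥H'), x a p.1 < x b p.2 := by
    intro a
    rw [← Ultrafilter.eventually_exists_iff]
    filter_upwards [hdisj a] with b hb
    obtain ⟨s, hs, t, ht, hst⟩ := hC a b (hGι b) hb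
    obtain ⟨i, rfl⟩ := hx' a s hs
    obtain ⟨j, rfl⟩ := hx' b t ht
    exact ⟨(i, j), hst⟩
  choose p hp using hp
  have hK : ∃ q : Fin m × Fin m, ¬ {a : ↥H' | p a = q}.Countable := by
    by_contra hno
    push Not at hno
    apply huncι
    rw [← Set.countable_univ_iff]
    refine (countable_iUnion hno).mono ?_
    intro a _
    exact mem_iUnion.2 ⟨p a, rfl⟩
  obtain ⟨⟨i, j⟩, hK⟩ := hK
  apply hK
  refine Set.countable_of_injective_of_countable_image (f := fun a => x a i) ?_
    (hT.nochain _ ?_)
  · intro a _ b _ hab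
    exact hdι a b (x a i) (hx a i) (by
      have : x a i = x b i := hab
      rw [this]
      exact hx b i)
  · rintro _ ⟨a, ha, rfl⟩ _ ⟨b, hb, rfl⟩ hne
    have ha' := hp a
    have hb' := hp b
    rw [show p a = (i, j) from ha] at ha'
    rw [show p b = (i, j) from hb] at hb'
    obtain ⟨c, hc1, hc2⟩ := (ha'.and hb').exists
    rcases hT.comp _ _ _ hc1 hc2 with h | h | h
    · exact Or.inl h.le
    · exact absurd h hne
    · exact Or.inr h.le

private theorem main (hT : WideTree T) (N : ℕ) : ∀ G : Set (Finset T), Unb G →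
    ∃ a : Fin N → Finset T, (∀ i, a i ∈ G) ∧ ∀ i j, i ≠ j → Inc (a i) (a j) := by
  induction N with
  | zero =>
    intro G hG
    exact ⟨fun i => i.elim0, fun i => i.elim0, fun i => i.elim0⟩
  | succ N ih =>
    intro G hG
    obtain ⟨a, haG, ha⟩ := key hT G hG
    obtain ⟨b, hb, hbb⟩ := ih _ ha
    refine ⟨Fin.cons a b, ?_, ?_⟩
    · intro i
      refine Fin.cases ?_ (fun i => ?_) i
      · simpa using haG
      · simpa using (hb i).1
    · intro i j
      refine Fin.cases ?_ (fun i => ?_) i
      · refine Fin.cases ?_ (fun j => ?_) j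
        · intro h
          exact absurd rfl h
        · intro _
          simpa using (hb j).2
      · refine Fin.cases ?_ (fun j => ?_) j
        · intro _
          have h := (hb i).2
          intro s hs t ht
          simp only [Fin.cons_succ, Fin.cons_zero] at hs ht
          obtain ⟨h1, h2, h3⟩ := h t ht s hs
          exact ⟨h2, h1, h3.symm⟩
        · intro hij
          have : i ≠ j := fun h => hij (by rw [h])
          simpa using hbb i j this

end TreeLAux

theorem tree_lemma (hT : WideTree T) (G : Set (Finset T))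
    (hG : ∀ C : Set T, C.Countable → ∃ a ∈ G, ∀ s ∈ a, s ∉ C) (N : ℕ) :
    ∃ a : Fin N → Finset T, (∀ i, a i ∈ G) ∧
      ∀ i j, i ≠ j → ∀ s ∈ a i, ∀ t ∈ a j, ¬ s < t ∧ ¬ t < s ∧ s ≠ t := by
  exact TreeLAux.main hT N G hG

end Pool.Agent.Lib.BSP
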