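import Pool.Agent.Lib.BSP.CopyA
import Pool.Agent.Lib.BSP.TreeL

/-!
# Module BSP.CopyB: the copy lemma (L6)

`copies`. Proof. Let `G` be the set of the finite `a` such that for some `r`: `Fine D p r (ε / 2)`, `a ⊆ r.A` and
`r.μ (hitB (r.A \ p.A) t K) ≤ η / 2` for all `t ∉ r.A` which are above no element of `a`. By `one_copy` every countable `C` is disjoint from some `a ∈ G`. Let
`N > 0` be a natural number with `p.μ univ / N ≤ η / 2` (`p.μ univ ≠ ⊤`; e.g. `ENNReal.exists_nat_mul_gt` or `exists_nat_gt` and `ENNReal.div_le_iff`). By `tree_lemma` there are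
`a i ∈ G`, `i : Fin N`, pairwise incomparable; let `r i` be the condition for `a i`. `B = ⋃ i, (r i).A` is a countable lower set. By
`fine_extend` (`δ = ε / 2`) there are `r' i` with domain `B`, `Fine D p (r' i) ε`, `(r' i).μ.map (rho (r i).A) ≤ (r i).μ`, values on `B \ (r i).A` at least `K`.
Estimate: let `t ∉ B`. If `t` is above no element of `a i`, then `(r' i).μ (hitB (B \ p.A) t K) ≤ (r' i).μ (hitB ((r i).A \ p.A) t K) + 0 ≤ η / 2`
(`meas_le_of_map`, `rho_mem_hitB`; the part `hitB (B \ (r i).A) t K` is a null set). At most one `i` is such that `t` is above an element of `a i`: if `s ∈ a i`, `s' ∈ a j`, `s < t`, `s' < t`, then `s, s'`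
are comparable by `hT.comp`, so `i = j`. For this `i` the measure is at most `(r' i).μ univ ≤ p.μ univ` (from the marginal, `map_rho_univ`).
The pieces of `r`: for `i : Fin N` let `q i j`, `j : ι i`, be the pieces of `r' i`; scale each by `1 / N` (`smul_cond`; in `D` by openness, same domain `B`). The sum `r`
of all of them (`sum_cond` for the index type `Σ i, ι i`, nonempty) has `r.μ = ∑ i, (1 / N) • (r' i).μ`, `r ≤ p`. Marginal: `r.μ.map (rho p.A) = ∑ (1 / N) • (r' i).μ.map (rho p.A) ≤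
N * (1 / N) • p.μ = p.μ`. Mass: `p.μ univ = ∑ (1 / N) * p.μ univ ≤ ∑ (1 / N) * ((r' i).μ univ + ε) = r.μ univ + ε`. Estimate:
`r.μ (hitB (B \ p.A) t K) = ∑ (1 / N) * (r' i).μ (hitB ..) ≤ (1 / N) * (p.μ univ + N * (η / 2)) ≤ η`.
-/

set_option autoImplicit false

open Set MeasureTheory
open scoped ENNReal

namespace Pool.Agent.Lib.BSP

universe u

variable {T : Type u} [PartialOrder T]

theorem copies (hT : WideTree T) {D : Set (Cond T)} (hD : OpenDense D) (p : Cond T) (K : ℕ)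
    {η ε : ℝ≥0∞} (hη : η ≠ 0) (hε : ε ≠ 0) :
    ∃ r : Cond T, Fine D p r ε ∧ ∀ t ∉ r.A, r.μ (hitB (r.A \ p.A) t K) ≤ η := by
  classical
  have hη2 : η / 2 ≠ 0 := ENNReal.div_ne_zero.2 ⟨hη, by norm_num⟩
  have hε2 : ε / 2 ≠ 0 := ENNReal.div_ne_zero.2 ⟨hε, by norm_num⟩
  set G : Set (Finset T) := {a | ∃ r : Cond T, Fine D p r (ε / 2) ∧ (∀ s ∈ a, s ∈ r.A) ∧
    ∀ t ∉ r.A, (∀ s ∈ a, ¬ s < t) → r.μ (hitB (r.A \ p.A) t K) ≤ η / 2} with hGdef
  have hG : ∀ C : Set T, C.Countable → ∃ a ∈ G, ∀ s ∈ a, s ∉ C := by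
    intro C hC
    obtain ⟨r, hr, a, ha, hh⟩ := one_copy hT hD p hC K hη2 hε2
    exact ⟨a, ⟨r, hr, fun s hs => (ha s hs).1, hh⟩, fun s hs => (ha s hs).2⟩
  obtain ⟨N, hN⟩ := ENNReal.exists_nat_mul_gt hη2 p.fin
  have hN0 : (N : ℝ≥0∞) ≠ 0 := by
    intro h
    rw [h, zero_mul] at hN
    exact absurd hN not_lt_zero
  have hNt : (N : ℝ≥0∞) ≠ ⊤ := ENNReal.natCast_ne_top N
  have hNpos : 0 < N := by
    rcases Nat.eq_zero_or_pos N with h | h
    · exact absurd (by rw [h]; exact Nat.cast_zero) hN0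
    · exact h
  obtain ⟨a, haG, hinc⟩ := tree_lemma hT G hG N
  choose r hfine hsub hhit using haG
  set B : Set T := ⋃ i, (r i).A with hB
  have hBc : B.Countable := countable_iUnion fun i => (r i).cnt
  have hBl : IsLowerSet B := isLowerSet_iUnion fun i => (r i).low
  have hext := fun i => fine_extend hD (hfine i) hBc hBl (subset_iUnion (fun i => (r i).A) i) K hε2
  choose r' hf' hle' hA' hmap' hval' using hext
  have hpr : ∀ i, p.A ⊆ (r i).A := fun i => (le_def.1 (hfine i).1).1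
  -- the two estimates
  have hest1 : ∀ i, ∀ t ∉ B, (∀ s ∈ a i, ¬ s < t) → (r' i).μ (hitB (B \ p.A) t K) ≤ η / 2 := by
    intro i t ht hs
    have h1 : hitB (B \ p.A) t K ⊆ hitB ((r i).A \ p.A) t K ∪ hitB (B \ (r i).A) t K := by
      rw [← hitB_union]
      rintro f ⟨s, hs1, hs2, hs3⟩
      refine ⟨s, ?_, hs2, hs3⟩
      by_cases h : s ∈ (r i).A
      · exact Or.inl ⟨h, hs1.2⟩
      · exact Or.inr ⟨hs1.1, h⟩
    have h2 : (r' i).μ (hitB ((r i).A \ p.A) t K) ≤ η / 2 := by
      refine le_trans (meas_le_of_map (hmap' i)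
        (measurableSet_hitB ((r i).cnt.mono sdiff_subset) t K)
        (fun f => rho_mem_hitB sdiff_subset t K f)) ?_
      exact hhit i t (fun h => ht (mem_iUnion.2 ⟨i, h⟩)) hs
    have h3 : (r' i).μ (hitB (B \ (r i).A) t K) = 0 := by
      have h4 : hitB (B \ (r i).A) t K ⊆ ⋃ s ∈ B \ (r i).A, {f : T → ℕ | f s < K} := by
        rintro f ⟨s, hs1, -, hs3⟩
        exact mem_biUnion hs1 hs3
      refine measure_mono_null h4 ?_
      rw [measure_biUnion_null_iff (hBc.mono sdiff_subset)]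
      exact fun s hs => hval' i s hs
    calc (r' i).μ (hitB (B \ p.A) t K)
        ≤ (r' i).μ (hitB ((r i).A \ p.A) t K ∪ hitB (B \ (r i).A) t K) := measure_mono h1
      _ ≤ (r' i).μ (hitB ((r i).A \ p.A) t K) + (r' i).μ (hitB (B \ (r i).A) t K) :=
          measure_union_le _ _
      _ ≤ η / 2 + 0 := by rw [h3]; gcongr
      _ = η / 2 := add_zero _
  have hest2 : ∀ i, (r' i).μ univ ≤ p.μ univ := by
    intro i
    have h1 := (hf' i).2.2.1 univ
    rwa [map_rho_univ] at h1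
  -- the pieces
  have hpieces := fun i => (hf' i).2.1
  choose ι hι q hq hsum using hpieces
  set c : ℝ≥0∞ := (N : ℝ≥0∞)⁻¹ with hc
  have hc0 : c ≠ 0 := ENNReal.inv_ne_zero.2 hNt
  have hct : c ≠ ⊤ := ENNReal.inv_ne_top.2 hN0
  have hcN : c * (N : ℝ≥0∞) = 1 := ENNReal.inv_mul_cancel hN0 hNt
  have hsm := fun (x : Σ i, ι i) => smul_cond (q x.1 x.2) hc0 hct
  choose w hw1 hw2 hw3 using hsm
  have hne : Nonempty (Σ i, ι i) := by
    by_contra hcon
    have hemp : IsEmpty (ι ⟨0, hNpos⟩) := by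
      refine ⟨fun j => hcon ⟨⟨⟨0, hNpos⟩, j⟩⟩⟩
    apply (r' ⟨0, hNpos⟩).ne
    rw [hsum]
    simp
  have hwA : ∀ x, (w x).A = B := fun x => by rw [hw2 x, (hq x.1 x.2).2.1, hA' x.1]
  obtain ⟨R, hR1, hR2, hR3⟩ := sum_cond w hwA
  have hRμ : R.μ = ∑ i, c • (r' i).μ := by
    rw [hR2, Fintype.sum_sigma]
    refine Finset.sum_congr rfl fun i _ => ?_
    rw [hsum i, Finset.smul_sum]
    exact Finset.sum_congr rfl fun j _ => hw3 ⟨i, j⟩
  have hRE : ∀ E : Set (T → ℕ), R.μ E = c * ∑ i, (r' i).μ E := by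
    intro E
    rw [hRμ, Measure.finsetSum_apply, Finset.mul_sum]
    exact Finset.sum_congr rfl fun i _ => by rw [Measure.smul_apply, smul_eq_mul]
  have hconst : ∀ x : ℝ≥0∞, c * ∑ _i : Fin N, x = x := by
    intro x
    rw [Finset.sum_const, Finset.card_univ, Fintype.card_fin, nsmul_eq_mul, ← mul_assoc, hcN, one_mul]
  refine ⟨R, ⟨?_, ⟨Σ i, ι i, inferInstance, w, fun x => ⟨?_, ?_, ?_⟩, hR2⟩, ?_, ?_⟩, ?_⟩
  · exact hR3 p fun x => (hw1 x).trans (hq x.1 x.2).2.2
  · exact hD.1 _ (hq x.1 x.2).1 _ (hw1 x)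
  · rw [hwA x, hR1]
  · exact (hw1 x).trans (hq x.1 x.2).2.2
  · refine Measure.le_iff.2 fun E hE => ?_
    rw [Measure.map_apply (measurable_rho _) hE, hRE]
    calc c * ∑ i, (r' i).μ (rho p.A ⁻¹' E) ≤ c * ∑ _i : Fin N, p.μ E := by
          refine mul_le_mul_right (Finset.sum_le_sum fun i _ => ?_) c
          have h1 := (hf' i).2.2.1 E
          rwa [Measure.map_apply (measurable_rho _) hE] at h1
      _ = p.μ E := hconst _
  · rw [hRE]
    calc p.μ univ = c * ∑ _i : Fin N, p.μ univ := (hconst _).symm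
      _ ≤ c * ∑ i, ((r' i).μ univ + ε) := by
          gcongr with i
          have h1 := (hf' i).2.2.2
          rwa [ENNReal.add_halves] at h1
      _ = c * ∑ i, (r' i).μ univ + ε := by
          rw [Finset.sum_add_distrib, mul_add, hconst]
  · intro t ht
    rw [hR1] at ht ⊢
    rw [hRE]
    have hbound : ∃ i0 : Fin N, ∀ i, (r' i).μ (hitB (B \ p.A) t K) ≤
        (if i = i0 then p.μ univ else 0) + η / 2 := by
      by_cases hex : ∃ i0, ∃ s ∈ a i0, s < t
      · obtain ⟨i0, s0, hs0, hst0⟩ := hex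
        refine ⟨i0, fun i => ?_⟩
        by_cases hi : i = i0
        · rw [if_pos hi]
          exact le_trans (measure_mono (subset_univ _)) ((hest2 i).trans le_self_add)
        · rw [if_neg hi, zero_add]
          refine hest1 i t ht fun s hs hst => ?_
          have h1 := hinc i i0 hi s hs s0 hs0
          rcases hT.comp t s s0 hst hst0 with h | h | h
          · exact h1.1 h
          · exact h1.2.2 h
          · exact h1.2.1 h
      · push Not at hex
        refine ⟨⟨0, hNpos⟩, fun i => ?_⟩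
        exact (hest1 i t ht (hex i)).trans le_add_self
    obtain ⟨i0, hi0⟩ := hbound
    calc c * ∑ i, (r' i).μ (hitB (B \ p.A) t K)
        ≤ c * ∑ i, ((if i = i0 then p.μ univ else 0) + η / 2) :=
          mul_le_mul_right (Finset.sum_le_sum fun i _ => hi0 i) c
      _ = c * p.μ univ + η / 2 := by
          rw [Finset.sum_add_distrib, mul_add, hconst, Finset.sum_ite_eq' Finset.univ i0]
          simp
      _ ≤ c * ((N : ℝ≥0∞) * (η / 2)) + η / 2 := by
          gcongr
      _ = η := by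
          rw [← mul_assoc, hcN, one_mul, ENNReal.add_halves]

end Pool.Agent.Lib.BSP
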