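import Pool.Agent.Lib.BSP.Stmt

/-!
# Module BSP.Defs: definitions (a bounding specialisation poset, MP_50703a_lc)

`T` is a partial order in which the strict predecessors of a node form a countable chain (a tree of any width), without
uncountable chains. A condition is a countable lower set `A` together with a finite nonzero measure `μ` on `T → ℕ`,
carried by the functions which are `0` off `A` and injective on the chains of `A`, such that (unif) the values are not
exhausted, uniformly in the nodes `t ∉ A`. The order is absolute continuity of the marginals together with a second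
uniform condition.
-/

set_option autoImplicit false

open Set MeasureTheory
open scoped ENNReal

namespace Pool.Agent.Lib.BSP

universe u

/-- restriction of a function to `A`, with value `0` off `A` -/
noncomputable def rho {T : Type u} (A : Set T) (f : T → ℕ) : T → ℕ := A.indicator f

section

variable {T : Type u} [PartialOrder T]

/-- all values in `[n, m)` are taken on the nodes of `A` below `t` -/
def full (A : Set T) (t : T) (n m : ℕ) : Set (T → ℕ) :=
  {f | ∀ k, n ≤ k → k < m → ∃ s ∈ A, s < t ∧ f s = k}

/-- the value `k` is taken on the nodes of `D` below `t` -/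
def hit (D : Set T) (t : T) (k : ℕ) : Set (T → ℕ) := {f | ∃ s ∈ D, s < t ∧ f s = k}

/-- some value below `K` is taken on the nodes of `D` below `t` -/
def hitB (D : Set T) (t : T) (K : ℕ) : Set (T → ℕ) := {f | ∃ s ∈ D, s < t ∧ f s < K}

/-- the uniform condition (U) -/
def Unif (A : Set T) (μ : Measure (T → ℕ)) : Prop :=
  ∀ n : ℕ, ∀ η : ℝ≥0∞, η ≠ 0 → ∃ m, n < m ∧ ∀ t ∉ A, μ (full A t n m) ≤ η

/-- the uniform condition (C): outside finitely many cones the value `k` is rarely used on `D` -/
def Thin (B D : Set T) (μ : Measure (T → ℕ)) : Prop :=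
  ∀ k : ℕ, ∀ η : ℝ≥0∞, η ≠ 0 → ∃ a : Finset T, (∀ s ∈ a, s ∈ D) ∧
    ∀ t ∉ B, (∀ s ∈ a, ¬ s < t) → μ (hit D t k) ≤ η

end

/-- The conditions. -/
structure Cond (T : Type u) [PartialOrder T] where
  A : Set T
  μ : Measure (T → ℕ)
  cnt : A.Countable
  low : IsLowerSet A
  fin : μ univ ≠ ⊤
  ne : μ ≠ 0
  sup : ∀ t ∉ A, μ {f | f t ≠ 0} = 0
  spec : ∀ s ∈ A, ∀ t ∈ A, s < t → μ {f | f s = f t} = 0
  unif : Unif A μ

/-- The order. -/
def LeC {T : Type u} [PartialOrder T] (q p : Cond T) : Prop :=
  p.A ⊆ q.A ∧ q.μ.map (rho p.A) ≪ p.μ ∧ Thin q.A (q.A \ p.A) q.μ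

end Pool.Agent.Lib.BSP
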