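import Pool.Agent.Lib.BSP.OrdB

/-!
# Module BSP.ExhA: below a positive event there is a piece with prescribed marginal (first half of L4)

`good_below`. Proof. Let `p' ≤ p` be the restriction of `p` to `F` (`restr_le`), `q' ∈ D`, `q' ≤ p'`, `ν = q'.μ.map (rho p.A)`, so
`ν ≪ p'.μ = p.μ.restrict F` (`p'.A = p.A`), and `ν ≪ p.μ`. Let `g = ν.rnDeriv p.μ` (measurable), `p.μ.withDensity g = ν`
(`Measure.withDensity_rnDeriv_eq`; use `IsFiniteMeasure` instances made from `Cond.fin`, and `Measure.haveLebesgueDecomposition_of_sigmaFinite`).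
Put `E = F ∩ {f | g f ≠ 0 ∧ g f ≠ ⊤}`, measurable. `p.μ E ≠ 0`: otherwise `ν E = 0`, `ν Fᶜ = 0`, `ν {g = 0} = ∫⁻ over it of g = 0` and
`p.μ {g = ⊤} = 0` (`Measure.rnDeriv_lt_top`), so `ν univ = 0`, `q'.μ univ = 0` (`map_rho_univ`), contradiction.
Let `h f = if rho p.A f ∈ E then (g (rho p.A f))⁻¹ else 0` (measurable; `Set.indicator` is fine), `ρ = q'.μ.withDensity h`. Then for measurable `S`
`ρ.map (rho p.A) S = ∫⁻ over rho⁻¹ S of h dq'.μ = ∫⁻ over S of (indicator E g⁻¹) dν = ∫⁻ over S of (indicator E g⁻¹) * g dp.μ = p.μ (S ∩ E)`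
(`setLIntegral_map`, `setLIntegral_withDensity_eq_setLIntegral_mul`), i.e. `ρ.map (rho p.A) = p.μ.restrict E`. So `ρ univ = p.μ E ≠ 0, ⊤`, `ρ ≪ q'.μ`
(`withDensity_absolutelyContinuous`), and `q = q'.chg ρ ≤ q'` (`chg_le`) is in `D` by openness.
-/

set_option autoImplicit false

open Set MeasureTheory
open scoped ENNReal

namespace Pool.Agent.Lib.BSP

universe u

variable {T : Type u} [PartialOrder T]

theorem good_below {D : Set (Cond T)} (hD : OpenDense D) (p : Cond T) {F : Set (T → ℕ)} (hF : MeasurableSet F)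
    (hF0 : p.μ F ≠ 0) :
    ∃ E : Set (T → ℕ), MeasurableSet E ∧ E ⊆ F ∧ p.μ E ≠ 0 ∧
      ∃ q ∈ D, q ≤ p ∧ q.μ.map (rho p.A) = p.μ.restrict E := by
  classical
  obtain ⟨p', hp1, hp2, hp3⟩ := restr_le p hF0
  obtain ⟨q', hq1, hq2⟩ := hD.2 p'
  obtain ⟨-, h2, -⟩ := le_def.1 hq1
  rw [hp2, hp3] at h2
  set ν : Measure (T → ℕ) := q'.μ.map (rho p.A) with hν
  have hac : ν ≪ p.μ := h2.trans (Measure.absolutelyContinuous_of_le Measure.restrict_le_self)
  have hνu : ν univ = q'.μ univ := map_rho_univ _ _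
  have : IsFiniteMeasure ν := ⟨by rw [hνu]; exact lt_top_iff_ne_top.2 q'.fin⟩
  have : IsFiniteMeasure p.μ := ⟨lt_top_iff_ne_top.2 p.fin⟩
  have hgm : Measurable (ν.rnDeriv p.μ) := Measure.measurable_rnDeriv _ _
  have hgν : p.μ.withDensity (ν.rnDeriv p.μ) = ν := Measure.withDensity_rnDeriv_eq _ _ hac
  have hgt : ∀ᵐ x ∂p.μ, ν.rnDeriv p.μ x < ⊤ := Measure.rnDeriv_lt_top _ _
  set g : (T → ℕ) → ℝ≥0∞ := ν.rnDeriv p.μ with hg
  have hm0 : MeasurableSet {f | g f = 0} := hgm (measurableSet_singleton 0)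
  have hmt : MeasurableSet {f | g f = ⊤} := hgm (measurableSet_singleton ⊤)
  set E : Set (T → ℕ) := F ∩ ({f | g f = 0}ᶜ ∩ {f | g f = ⊤}ᶜ) with hE
  have hEm : MeasurableSet E := hF.inter (hm0.compl.inter hmt.compl)
  have hE0 : p.μ E ≠ 0 := by
    intro h0
    have h3 : ν E = 0 := hac h0
    have h4 : ν Fᶜ = 0 := by
      apply h2
      rw [Measure.restrict_apply hF.compl, Set.compl_inter_self, measure_empty]
    have h5 : ν {f | g f = 0} = 0 := by
      rw [← hgν, withDensity_apply _ hm0]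
      rw [setLIntegral_eq_zero_iff hm0 hgm]
      exact Filter.Eventually.of_forall fun x hx => hx
    have h6 : ν {f | g f = ⊤} = 0 := by
      apply hac
      rw [ae_iff] at hgt
      refine measure_mono_null ?_ hgt
      intro x hx
      have hx : g x = ⊤ := hx
      show ¬ g x < ⊤
      rw [hx]
      exact lt_irrefl _
    have h7 : ν univ = 0 := by
      refine measure_mono_null (t := E ∪ (Fᶜ ∪ ({f | g f = 0} ∪ {f | g f = ⊤}))) ?_ ?_
      · intro x _
        by_cases hx1 : x ∈ F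
        · by_cases hx2 : g x = 0
          · exact Or.inr (Or.inr (Or.inl hx2))
          · by_cases hx3 : g x = ⊤
            · exact Or.inr (Or.inr (Or.inr hx3))
            · exact Or.inl ⟨hx1, hx2, hx3⟩
        · exact Or.inr (Or.inl hx1)
      · rw [measure_union_null_iff, measure_union_null_iff, measure_union_null_iff]
        exact ⟨h3, h4, h5, h6⟩
    rw [hνu] at h7
    exact q'.ne (Measure.measure_univ_eq_zero.1 h7)
  set k : (T → ℕ) → ℝ≥0∞ := E.indicator (fun f => (g f)⁻¹) with hk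
  have hkm : Measurable k := hgm.inv.indicator hEm
  have hr : Measurable (rho p.A) := measurable_rho _
  have hmap : (q'.μ.withDensity (fun f => k (rho p.A f))).map (rho p.A) = p.μ.restrict E := by
    refine Measure.ext fun S hS => ?_
    rw [Measure.map_apply hr hS, withDensity_apply _ (hr hS), ← setLIntegral_map hS hkm hr,
      ← hν, ← hgν, setLIntegral_withDensity_eq_setLIntegral_mul _ hgm hkm hS,
      Measure.restrict_apply hS]
    have h8 : (g * k) = E.indicator (fun _ => (1 : ℝ≥0∞)) := by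
      funext x
      rw [Pi.mul_apply, hk]
      by_cases hx : x ∈ E
      · rw [Set.indicator_of_mem hx, Set.indicator_of_mem hx]
        exact ENNReal.mul_inv_cancel hx.2.1 hx.2.2
      · rw [Set.indicator_of_notMem hx, Set.indicator_of_notMem hx, mul_zero]
    rw [h8, lintegral_indicator hEm, Measure.restrict_restrict hEm, setLIntegral_one,
      Set.inter_comm]
  have hρu : (q'.μ.withDensity (fun f => k (rho p.A f))) univ = p.μ E := by
    rw [← map_rho_univ p.A, hmap, Measure.restrict_apply MeasurableSet.univ, Set.univ_inter]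
  have hρt : (q'.μ.withDensity (fun f => k (rho p.A f))) univ ≠ ⊤ := by
    rw [hρu]
    exact measure_ne_top _ _
  have hρ0 : q'.μ.withDensity (fun f => k (rho p.A f)) ≠ 0 := by
    intro h
    apply hE0
    rw [← hρu, h]
    rfl
  have hρa : q'.μ.withDensity (fun f => k (rho p.A f)) ≪ q'.μ :=
    withDensity_absolutelyContinuous _ _
  refine ⟨E, hEm, Set.inter_subset_left, hE0, q'.chg _ hρt hρ0 hρa,
    hD.1 q' hq2 _ (chg_le q' hρt hρ0 hρa), ((chg_le q' hρt hρ0 hρa).trans hq1).trans hp1, hmap⟩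

end Pool.Agent.Lib.BSP
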