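import Pool.Agent.Lib.BSP.Card

/-!
# Module BSP.Family: one poset for a family of trees

The disjoint union of a family of trees without uncountable chains is again such a tree.
-/

set_option autoImplicit false

open Set Cardinal

namespace Pool.Agent.Lib.BSP

universe u

namespace FamilyAux

variable {ι : Type u} {T : ι → Type u} [∀ i, PartialOrder (T i)]

theorem lt_fib {i : ι} {x y : T i} : ((⟨i, x⟩ : Σ i, T i) < ⟨i, y⟩) ↔ x < y := by
  rw [Sigma.mk_lt_mk_iff]

theorem wide (hT : ∀ i, WideTree (T i)) : WideTree (Σ i, T i) where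
  comp := by
    rintro ⟨o, t⟩ ⟨o1, r⟩ ⟨o2, s⟩ h1 h2
    obtain rfl : o1 = o := by
      rcases Sigma.lt_def.1 h1 with ⟨h, _⟩; exact h
    obtain rfl : o2 = o1 := by
      rcases Sigma.lt_def.1 h2 with ⟨h, _⟩; exact h
    rw [lt_fib] at h1 h2
    rcases ((hT o2).comp t r s h1 h2) with h | h | h
    · exact Or.inl (lt_fib.2 h)
    · exact Or.inr (Or.inl (by rw [h]))
    · exact Or.inr (Or.inr (lt_fib.2 h))
  cnt := by
    rintro ⟨o, t⟩
    have : Iio (⟨o, t⟩ : Σ i, T i) ⊆ (fun x : T o => (⟨o, x⟩ : Σ i, T i)) '' (Iio t) := by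
      rintro ⟨o1, r⟩ h
      obtain rfl : o1 = o := by
        rcases Sigma.lt_def.1 h with ⟨h, _⟩; exact h
      exact ⟨r, lt_fib.1 h, rfl⟩
    exact (((hT o).cnt t).image _).mono this
  nochain := by
    intro C hC
    rcases C.eq_empty_or_nonempty with rfl | ⟨⟨o, x⟩, hx⟩
    · exact countable_empty
    have hsub : C ⊆ (fun x : T o => (⟨o, x⟩ : Σ i, T i)) ''
        ((fun x : T o => (⟨o, x⟩ : Σ i, T i)) ⁻¹' C) := by
      rintro ⟨o1, y⟩ hy
      obtain rfl : o1 = o := by
        by_contra hne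
        rcases hC hy hx (fun h => hne (congrArg Sigma.fst h)) with h | h
        · rcases Sigma.le_def.1 h with ⟨h, _⟩; exact hne h
        · rcases Sigma.le_def.1 h with ⟨h, _⟩; exact hne h.symm
      exact ⟨y, hy, rfl⟩
    refine Countable.mono hsub (Countable.image ?_ _)
    refine (hT o).nochain _ ?_
    intro a ha b hb hab
    rcases hC ha hb (fun h => hab (by simpa using h)) with h | h
    · exact Or.inl (Sigma.mk_le_mk_iff.1 h)
    · exact Or.inr (Sigma.mk_le_mk_iff.1 h)

end FamilyAux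

/-- One poset for all trees of a family. -/
theorem mainFam {ι : Type u} (T : ι → Type u) [∀ i, PartialOrder (T i)] (hT : ∀ i, WideTree (T i)) :
    ∃ (P : Type u) (_ : Preorder P), Nonempty P ∧
      #P ≤ (max ℵ₀ (Cardinal.sum fun i => #(T i))) ^ (ℵ₀ : Cardinal.{u}) ∧ BoundingGame P ∧
      ∀ i, ∃ F : T i → ℕ → Set P, Specialises F := by
  refine ⟨Cond (Σ i, T i), inferInstance, nonempty_cond _, ?_, boundingGame (FamilyAux.wide hT), fun i => ?_⟩
  · have h := card_cond (Σ i, T i)
    rwa [mk_sigma] at h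
  · refine ⟨fun x n => Fval (⟨i, x⟩ : Σ i, T i) n, ?_⟩
    obtain ⟨a, b, c, d⟩ := specialises (FamilyAux.wide hT)
    exact ⟨fun t => a _, fun t => b _, fun t => c _, fun s t m n hst => d _ _ m n (FamilyAux.lt_fib.2 hst)⟩

end Pool.Agent.Lib.BSP
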