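import Pool.Agent.Lib.BSP.Game

/-!
# Module BSP.Final: the specialising function

`F t n` is the set of the conditions `p` with `t ∈ p.A` and `f t = n` for `p.μ`-almost all `f`.
* downwards closed: `q ≤ p`, `p ∈ F t n`: `t ∈ p.A ⊆ q.A`, and `meas_zero_of_map` for `{f | f t ≠ n}` (which only depends on `p.A`, as `t ∈ p.A`; `measurableSet_val`).
* dense: `B = p.A ∪ {s | s ≤ t}` is a countable lower set (`hT.cnt`); by `free` (any `ε`, e.g. `1`, `N = 0`) there is `q ≤ p` with `q.A = B`; as `q.μ univ ≠ 0` and `univ = ⋃ n, {f | f t = n}`, some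
  `{f | f t = n}` has positive `q.μ`-measure; restrict `q` to it (`restr_le`).
* unique: `p ∈ F t m`, `p ∈ F t n`, `m ≠ n`: `univ ⊆ {f | f t ≠ m} ∪ {f | f t ≠ n}`, so `p.μ = 0`, contradiction.
* injective on chains: `s < t`, `p ∈ F s n`, `p ∈ F t n`: `univ ⊆ {f | f s ≠ n} ∪ {f | f t ≠ n} ∪ {f | f s = f t}`, all null (`p.spec`).
The trivial condition: `A = ∅`, `μ = Measure.dirac 0`; `Unif ∅ μ` with `m = n + 1` (`full ∅ t n (n + 1) = ∅`).
-/

set_option autoImplicit false

open Set MeasureTheory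
open scoped ENNReal

namespace Pool.Agent.Lib.BSP

universe u

variable {T : Type u} [PartialOrder T]

/-- `p` forces `f t = n` -/
def Fval (t : T) (n : ℕ) : Set (Cond T) := {p | t ∈ p.A ∧ p.μ {f | f t ≠ n} = 0}

namespace FinalAux

omit [PartialOrder T] in
theorem meas_ne (t : T) (n : ℕ) : MeasurableSet {f : T → ℕ | f t ≠ n} :=
  measurableSet_val t {k | k ≠ n}

omit [PartialOrder T] in
theorem meas_eq (t : T) (n : ℕ) : MeasurableSet {f : T → ℕ | f t = n} :=
  measurableSet_val t {k | k = n}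

theorem false_of_cover (p : Cond T) {E : Set (T → ℕ)} (hE : p.μ E = 0) (h : ∀ f, f ∈ E) : False := by
  apply p.ne
  rw [← Measure.measure_univ_eq_zero]
  exact measure_mono_null (fun f _ => h f) hE

theorem down {t : T} {n : ℕ} {p q : Cond T} (hp : p ∈ Fval t n) (hq : q ≤ p) : q ∈ Fval t n := by
  obtain ⟨h1, h2⟩ := hp
  obtain ⟨k1, k2, -⟩ := le_def.1 hq
  refine ⟨k1 h1, meas_zero_of_map k2 (meas_ne t n) (fun f => ?_) h2⟩
  simp only [mem_ofPred_eq, rho_mem h1]

theorem dense (hT : WideTree T) (t : T) (p : Cond T) : ∃ q ≤ p, ∃ n, q ∈ Fval t n := by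
  have hc : {s : T | s ≤ t}.Countable := by
    refine ((hT.cnt t).insert t).mono fun s hs => ?_
    rcases eq_or_lt_of_le (show s ≤ t from hs) with h | h
    · exact Or.inl h
    · exact Or.inr h
  have hl : IsLowerSet (p.A ∪ {s : T | s ≤ t}) := by
    intro a b hab ha
    rcases ha with ha | ha
    · exact Or.inl (p.low hab ha)
    · exact Or.inr (le_trans hab ha)
  obtain ⟨q, hq, hA, -, -, -⟩ := free p (p.cnt.union hc) hl subset_union_left 0
    (one_ne_zero : (1 : ℝ≥0∞) ≠ 0)
  have ht : t ∈ q.A := by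
    rw [hA]
    exact Or.inr (le_refl t)
  obtain ⟨n, hn⟩ : ∃ n, q.μ {f : T → ℕ | f t = n} ≠ 0 := by
    by_contra hcon
    push Not at hcon
    refine false_of_cover q (measure_iUnion_null hcon) fun f => ?_
    exact mem_iUnion.2 ⟨f t, rfl⟩
  obtain ⟨q', h1, h2, h3⟩ := restr_le q hn
  refine ⟨q', le_trans h1 hq, n, by rw [h2]; exact ht, ?_⟩
  rw [h3, Measure.restrict_apply (meas_ne t n)]
  have : {f : T → ℕ | f t ≠ n} ∩ {f : T → ℕ | f t = n} = ∅ := by
    ext f
    simp
  rw [this, measure_empty]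

theorem uniq {t : T} {m n : ℕ} {p : Cond T} (h1 : p ∈ Fval t m) (h2 : p ∈ Fval t n) : m = n := by
  by_contra hmn
  refine false_of_cover p (measure_union_null h1.2 h2.2) fun f => ?_
  by_cases h : f t = m
  · exact Or.inr (by rw [mem_ofPred_eq, h]; exact hmn)
  · exact Or.inl h

theorem inj {s t : T} {m n : ℕ} (hst : s < t) {p : Cond T} (h1 : p ∈ Fval s m) (h2 : p ∈ Fval t n) :
    m ≠ n := by
  rintro rfl
  refine false_of_cover p (measure_union_null (measure_union_null h1.2 h2.2)
    (p.spec s h1.1 t h2.1 hst)) fun f => ?_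
  by_cases h : f s = m
  · by_cases h' : f t = m
    · exact Or.inr (h.trans h'.symm)
    · exact Or.inl (Or.inr h')
  · exact Or.inl (Or.inl h)

end FinalAux

theorem specialises (hT : WideTree T) : Specialises (Fval : T → ℕ → Set (Cond T)) :=
  ⟨fun _ _ _ hp _ hq => FinalAux.down hp hq, fun t p => FinalAux.dense hT t p,
    fun _ _ _ _ h1 h2 => FinalAux.uniq h1 h2, fun _ _ _ _ hst _ h1 h2 => FinalAux.inj hst h1 h2⟩

theorem nonempty_cond (T : Type u) [PartialOrder T] : Nonempty (Cond T) := by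
  refine ⟨⟨∅, Measure.dirac 0, countable_empty, isLowerSet_empty, ?_, ?_, ?_, ?_, ?_⟩⟩
  · simp
  · exact Measure.dirac_ne_zero
  · intro t _
    rw [Measure.dirac_apply' _ (FinalAux.meas_ne t 0)]
    simp
  · intro s hs
    exact absurd hs (notMem_empty s)
  · intro n η _
    refine ⟨n + 1, Nat.lt_succ_self n, fun t _ => ?_⟩
    have : full (∅ : Set T) t n (n + 1) = ∅ := by
      ext f
      simp only [full, mem_ofPred_eq, mem_empty_iff_false, iff_false]
      intro h
      obtain ⟨s, hs, -⟩ := h n le_rfl (Nat.lt_succ_self n)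
      exact hs
    rw [this, measure_empty]
    exact zero_le

theorem main (hT : WideTree T) : ∃ (P : Type u) (_ : Preorder P) (F : T → ℕ → Set P), Nonempty P ∧
    Specialises F ∧ BoundingGame P :=
  ⟨Cond T, inferInstance, Fval, nonempty_cond T, specialises hT, boundingGame hT⟩

end Pool.Agent.Lib.BSP
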