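import Pool.Agent.Lib.BSP.OrdB

/-!
# Module BSP.Free: the free extension (L3 of bounding_specialisation.md)

`free`: every condition `p` extends to any countable lower set `B ⊇ p.A`, with new values `≥ N`, losing at most `ε`.

Proof. Put `ε' = min ε (p.μ univ / 2)` and take `δ : ℕ → ℝ≥0∞` positive with `∑' j, δ j < ε'` (`ENNReal.exists_pos_sum_of_countable'`).
By `p.unif` and recursion there is `M : ℕ → ℕ` strictly increasing, `N ≤ M 0` (start with the window `[M 0, M 1)`, `M 0 = N`), with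
`p.μ (full p.A t (M j) (M (j + 1))) ≤ δ j` for all `t ∉ p.A` and all `j` (even with `δ' j = min`, whatever is convenient). Let `e : B \ p.A → ℕ` be
injective (`B` countable). For `f : T → ℕ` and `t ∈ B \ p.A` let `S f t = {k | M (2 e t) ≤ k ∧ k < M (2 e t + 1) ∧ ∀ s ∈ p.A, s < t → f s ≠ k}` and
`Φ f t = f t` for `t ∈ p.A`, `Φ f t = sInf (S f t)` for `t ∈ B \ p.A`, `Φ f t = 0` for `t ∉ B`.
`G = {f | ∀ t ∈ B \ p.A, f ∉ full p.A t (M (2 e t)) (M (2 e t + 1))}`; for `f ∈ G` each `S f t` is nonempty.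
* `Φ` is measurable: `measurable_pi_iff`, `measurable_to_countable'`; `{f | sInf (S f t) = k}` is a Boolean combination of the countably many
  measurable events `{f | j ∈ S f t}`.
* `q.A = B`, `q.μ = (p.μ.restrict G).map Φ`. `p.μ Gᶜ ≤ ∑ over B \ p.A of δ (2 e t) ≤ ∑' j, δ j < ε'` (`measure_biUnion_le`, injectivity of `e`:
  `ENNReal.tsum_comp_le_tsum_of_injective`). So `q.μ univ = p.μ G` gives the mass estimate and `q.μ ≠ 0`.
* `rho p.A (Φ f) = rho p.A f`, so `q.μ.map (rho p.A) = (p.μ.restrict G).map (rho p.A) ≤ p.μ.map (rho p.A) = p.μ` (`map_rho`, `Measure.map_mono`,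
  `Measure.restrict_le_self`).
* `spec`: on `G`, with `s < t`, `s, t ∈ B`: if `t ∈ p.A`, also `s ∈ p.A` (`p.low`) and `Φ` does not change the values, `p.spec` (up to the restriction);
  if `t ∉ p.A`, `s ∈ p.A`: `Φ f t = sInf (S f t) ∈ S f t` is different from `f s`; if both are in `B \ p.A`: the values lie in
  the windows `2 e s ≠ 2 e t`, which are disjoint (`M` monotone).
* `Unif B q.μ`: given `n, η` take an odd `j` with `n ≤ M j` and `δ j ≤ η` (`ENNReal.tendsto_atTop_zero_of_tsum_ne_top`), `m = M (j + 1)`. For `t ∉ B`,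
  `Φ ⁻¹' (full B t n m) ∩ G ⊆ full p.A t (M j) (M (j + 1))` as values on `B \ p.A` lie in even windows. So the measure is
  `≤ δ j ≤ η`.
* `Thin B (B \ p.A) q.μ`: given `k` let `a` be the set of the `s ∈ B \ p.A` with `M (2 e s) ≤ k < M (2 e s + 1)`; it has at most one element
  (`Set.Subsingleton.finite.toFinset`), and for `f ∈ G` only `s ∈ a` can have `Φ f s = k`.
-/

set_option autoImplicit false

open Set MeasureTheory
open scoped ENNReal

namespace Pool.Agent.Lib.BSP

universe u

variable {T : Type u} [PartialOrder T]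

namespace FreeAux

theorem win_eq {M : ℕ → ℕ} (hM : StrictMono M) {i j k : ℕ} (h1 : M i ≤ k) (h2 : k < M (i + 1))
    (h3 : M j ≤ k) (h4 : k < M (j + 1)) : i = j := by
  have h5 : i < j + 1 := hM.lt_iff_lt.1 (lt_of_le_of_lt h1 h4)
  have h6 : j < i + 1 := hM.lt_iff_lt.1 (lt_of_le_of_lt h3 h2)
  omega

theorem meas_sInf {Ω : Type u} [MeasurableSpace Ω] (S : Ω → Set ℕ) (h : ∀ j, MeasurableSet {x | j ∈ S x}) :
    Measurable fun x => sInf (S x) := by
  classical
  refine measurable_to_countable' fun k => ?_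
  have h1 : (fun x => sInf (S x)) ⁻¹' {k} =
      (⋂ j ∈ Finset.range k, {x | j ∈ S x}ᶜ) ∩ ({x | k ∈ S x} ∪ (if k = 0 then ⋂ j, {x | j ∈ S x}ᶜ else ∅)) := by
    ext x
    simp only [mem_preimage, mem_singleton_iff, mem_inter_iff, mem_iInter, Finset.mem_range, mem_compl_iff,
      mem_ofPred_eq, mem_union]
    constructor
    · intro hx
      refine ⟨fun j hj => Nat.notMem_of_lt_sInf (by rw [hx]; exact hj), ?_⟩
      rcases (S x).eq_empty_or_nonempty with h0 | h0
      · right
        have hk : k = 0 := by rw [← hx, h0, Nat.sInf_empty]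
        rw [if_pos hk]
        simp only [mem_iInter, mem_compl_iff, mem_ofPred_eq]
        intro j
        rw [h0]
        exact notMem_empty j
      · left
        rw [← hx]
        exact Nat.sInf_mem h0
    · rintro ⟨hx1, hx2⟩
      rcases hx2 with hx2 | hx2
      · refine le_antisymm (Nat.sInf_le hx2) ?_
        by_contra hcon
        push Not at hcon
        exact hx1 _ hcon (Nat.sInf_mem ⟨k, hx2⟩)
      · by_cases hk : k = 0
        · rw [if_pos hk] at hx2
          simp only [mem_iInter, mem_compl_iff, mem_ofPred_eq] at hx2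
          have h0 : S x = ∅ := eq_empty_iff_forall_notMem.2 hx2
          rw [h0, Nat.sInf_empty, hk]
        · rw [if_neg hk] at hx2
          exact absurd hx2 (notMem_empty _)
  rw [h1]
  refine MeasurableSet.inter ?_ (MeasurableSet.union (h k) ?_)
  · exact Finset.measurableSet_biInter _ fun j _ => (h j).compl
  · split_ifs
    · exact MeasurableSet.iInter fun j => (h j).compl
    · exact MeasurableSet.empty

end FreeAux

theorem free (p : Cond T) {B : Set T} (hBc : B.Countable) (hBl : IsLowerSet B) (hAB : p.A ⊆ B) (N : ℕ)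
    {ε : ℝ≥0∞} (hε : ε ≠ 0) :
    ∃ q : Cond T, q ≤ p ∧ q.A = B ∧ q.μ.map (rho p.A) ≤ p.μ ∧ p.μ univ ≤ q.μ univ + ε ∧
      ∀ s ∈ B \ p.A, q.μ {f | f s < N} = 0 := by
  classical
  have hu0 : p.μ univ ≠ 0 := fun h => p.ne (Measure.measure_univ_eq_zero.1 h)
  obtain ⟨δ, hδ, hδs⟩ := ENNReal.exists_pos_sum_of_countable' (ε := min ε (p.μ univ))
    (by simp [hε, hu0]) ℕ
  have hun : ∀ (n : ℕ) (j : ℕ), ∃ m, n < m ∧ ∀ t ∉ p.A, p.μ (full p.A t n m) ≤ δ j := fun n j =>
    p.unif n (δ j) (hδ j).ne'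
  choose F hF1 hF2 using hun
  let M : ℕ → ℕ := fun j => Nat.rec N (fun j m => F m j) j
  have hM0 : M 0 = N := rfl
  have hMs : ∀ j, M (j + 1) = F (M j) j := fun j => rfl
  have hM : StrictMono M := strictMono_nat_of_lt_succ fun j => by rw [hMs]; exact hF1 _ _
  have hMf : ∀ j, ∀ t ∉ p.A, p.μ (full p.A t (M j) (M (j + 1))) ≤ δ j := fun j t ht => by
    rw [hMs]; exact hF2 _ _ t ht
  obtain ⟨e, he⟩ := countable_iff_exists_injOn.1 hBc
  let S : (T → ℕ) → T → Set ℕ := fun f t =>
    {k | M (2 * e t) ≤ k ∧ k < M (2 * e t + 1) ∧ ∀ s ∈ p.A, s < t → f s ≠ k}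
  let Φ : (T → ℕ) → T → ℕ := fun f t => if t ∈ p.A then f t else if t ∈ B then sInf (S f t) else 0
  have hΦA : ∀ f, ∀ t ∈ p.A, Φ f t = f t := fun f t ht => if_pos ht
  have hΦB : ∀ f, ∀ t ∈ B, t ∉ p.A → Φ f t = sInf (S f t) := fun f t ht ht' => by
    simp only [Φ]; rw [if_neg ht', if_pos ht]
  have hΦ0 : ∀ f, ∀ t ∉ B, Φ f t = 0 := fun f t ht => by
    simp only [Φ]; rw [if_neg fun h => ht (hAB h), if_neg ht]
  let G : Set (T → ℕ) := {f | ∀ t ∈ B \ p.A, f ∉ full p.A t (M (2 * e t)) (M (2 * e t + 1))}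
  have hGm : MeasurableSet G := by
    have : G = ⋂ t ∈ B \ p.A, (full p.A t (M (2 * e t)) (M (2 * e t + 1)))ᶜ := by
      ext f; simp [G]
    rw [this]
    exact MeasurableSet.biInter (hBc.mono sdiff_subset) fun t _ => (measurableSet_full p.cnt _ _ _).compl
  have hGc : Gᶜ = ⋃ t ∈ B \ p.A, full p.A t (M (2 * e t)) (M (2 * e t + 1)) := by
    ext f; simp [G, and_assoc]
  have hGc' : p.μ Gᶜ ≤ ∑' j, δ j := by
    rw [hGc]
    refine (measure_biUnion_le p.μ (hBc.mono sdiff_subset) _).trans ?_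
    refine le_trans (ENNReal.tsum_le_tsum fun t : (B \ p.A : Set T) => hMf (2 * e t) t t.2.2) ?_
    refine ENNReal.tsum_comp_le_tsum_of_injective (f := fun t : (B \ p.A : Set T) => 2 * e t) ?_ δ
    intro s t hst
    have h1 : e s = e t := by simpa using hst
    exact Subtype.ext (he s.2.1 t.2.1 h1)
  have hmem : ∀ f ∈ G, ∀ t ∈ B, t ∉ p.A → Φ f t ∈ S f t := by
    intro f hf t ht ht'
    rw [hΦB f t ht ht']
    refine Nat.sInf_mem ?_
    have h1 := hf t ⟨ht, ht'⟩
    simp only [full, mem_ofPred_eq] at h1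
    push Not at h1
    obtain ⟨k, hk1, hk2, hk3⟩ := h1
    exact ⟨k, hk1, hk2, hk3⟩
  have hSm : ∀ t j, MeasurableSet {f : T → ℕ | j ∈ S f t} := by
    intro t j
    have : {f : T → ℕ | j ∈ S f t} = ({f | M (2 * e t) ≤ j ∧ j < M (2 * e t + 1)} : Set (T → ℕ)) ∩
        ⋂ s ∈ {s ∈ p.A | s < t}, {f | f s ∈ ({j}ᶜ : Set ℕ)} := by
      ext f
      simp only [S, mem_ofPred_eq, mem_inter_iff, mem_iInter, mem_compl_iff, mem_singleton_iff, and_imp,
        and_assoc, ne_eq]
    rw [this]
    refine MeasurableSet.inter (MeasurableSet.const _) ?_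
    exact MeasurableSet.biInter (p.cnt.mono (sep_subset _ _)) fun s _ => measurableSet_val s _
  have hΦm : Measurable Φ := by
    refine measurable_pi_iff.2 fun t => ?_
    by_cases h1 : t ∈ p.A
    · have : (fun f => Φ f t) = fun f => f t := funext fun f => hΦA f t h1
      rw [this]
      exact measurable_pi_apply t
    · by_cases h2 : t ∈ B
      · have : (fun f => Φ f t) = fun f => sInf (S f t) := funext fun f => hΦB f t h2 h1
        rw [this]
        exact FreeAux.meas_sInf (fun f => S f t) (hSm t)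
      · have : (fun f => Φ f t) = fun _ => 0 := funext fun f => hΦ0 f t h2
        rw [this]
        exact measurable_const
  let ν : Measure (T → ℕ) := (p.μ.restrict G).map Φ
  have hνa : ∀ E, MeasurableSet E → ν E = p.μ (Φ ⁻¹' E ∩ G) := fun E hE => by
    simp only [ν]
    rw [Measure.map_apply hΦm hE, Measure.restrict_apply (hΦm hE)]
  have hνu : ν univ = p.μ G := by
    rw [hνa _ MeasurableSet.univ, preimage_univ, univ_inter]
  have hν0 : ∀ E, MeasurableSet E → (∀ f ∈ G, Φ f ∉ E) → ν E = 0 := fun E hE h => by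
    rw [hνa _ hE]
    have : Φ ⁻¹' E ∩ G = ∅ := by
      ext f
      simp only [mem_inter_iff, mem_preimage, mem_empty_iff_false, iff_false, not_and]
      exact fun h1 h2 => h f h2 h1
    rw [this, measure_empty]
  have hrho : ∀ f, rho p.A (Φ f) = rho p.A f := by
    intro f
    funext t
    by_cases ht : t ∈ p.A
    · rw [rho_mem ht, rho_mem ht, hΦA f t ht]
    · rw [rho_not ht, rho_not ht]
  have hνr : ν.map (rho p.A) ≤ p.μ := by
    have h1 : ν.map (rho p.A) = (p.μ.restrict G).map (rho p.A) := by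
      simp only [ν]
      rw [Measure.map_map (measurable_rho _) hΦm]
      congr 1
      exact funext hrho
    rw [h1]
    calc (p.μ.restrict G).map (rho p.A) ≤ p.μ.map (rho p.A) :=
          Measure.map_mono Measure.restrict_le_self (measurable_rho _)
      _ = p.μ := map_rho p.sup
  have hsum : p.μ univ ≤ p.μ G + p.μ Gᶜ := by
    rw [← union_compl_self G]
    exact measure_union_le _ _
  have hone : ν ≠ 0 := by
    intro h
    have h1 : ν univ = 0 := by rw [h]; rfl
    rw [hνu] at h1
    rw [h1, zero_add] at hsum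
    have h2 : p.μ Gᶜ < p.μ univ := lt_of_le_of_lt hGc' (lt_of_lt_of_le hδs (min_le_right _ _))
    exact absurd hsum (not_le.2 h2)
  have hspec : ∀ s ∈ B, ∀ t ∈ B, s < t → ν {f | f s = f t} = 0 := by
    intro s hs t ht hst
    by_cases htA : t ∈ p.A
    · have hsA : s ∈ p.A := p.low hst.le htA
      rw [hνa _ (measurableSet_eq s t)]
      refine measure_mono_null ?_ (p.spec s hsA t htA hst)
      rintro f ⟨h1, -⟩
      have h2 : Φ f s = Φ f t := h1
      rw [hΦA f s hsA, hΦA f t htA] at h2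
      exact h2
    · refine hν0 _ (measurableSet_eq s t) fun f hf h1 => ?_
      have h2 : Φ f s = Φ f t := h1
      have h3 := hmem f hf t ht htA
      by_cases hsA : s ∈ p.A
      · rw [hΦA f s hsA] at h2
        exact h3.2.2 s hsA hst h2
      · have h4 := hmem f hf s hs hsA
        rw [h2] at h4
        have h5 := FreeAux.win_eq hM h3.1 h3.2.1 h4.1 h4.2.1
        have h6 : e t = e s := by omega
        exact hst.ne (he hs ht h6.symm)
  have hunif : Unif B ν := by
    intro n η hη
    have hne : ∑' j, δ j ≠ ⊤ := ne_top_of_lt hδs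
    have hlim := ENNReal.tendsto_atTop_zero_of_tsum_ne_top hne
    have hev := ENNReal.tendsto_nhds_zero.1 hlim η (pos_iff_ne_zero.2 hη)
    obtain ⟨J, hJ⟩ := Filter.eventually_atTop.1 hev
    set j := 2 * max J n + 1 with hj
    have hjJ : J ≤ j := by have := le_max_left J n; omega
    have hjn : n ≤ j := by have := le_max_right J n; omega
    have hjM : n ≤ M j := hjn.trans hM.le_apply
    refine ⟨M (j + 1), lt_of_le_of_lt hjM (hM (Nat.lt_succ_self j)), fun t ht => ?_⟩
    rw [hνa _ (measurableSet_full hBc _ _ _)]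
    refine le_trans (measure_mono ?_) ((hMf j t fun h => ht (hAB h)).trans (hJ j hjJ))
    rintro f ⟨h1, hfG⟩ k hk1 hk2
    obtain ⟨s, hs, hst, hsk⟩ := h1 k (hjM.trans hk1) hk2
    by_cases hsA : s ∈ p.A
    · exact ⟨s, hsA, hst, by rw [← hsk, hΦA f s hsA]⟩
    · exfalso
      have h4 := hmem f hfG s hs hsA
      rw [hsk] at h4
      have h5 := FreeAux.win_eq hM (i := j) (j := 2 * e s) hk1 hk2 h4.1 h4.2.1
      omega
  let q : Cond T :=
    { A := B
      μ := ν
      cnt := hBc
      low := hBl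
      fin := by
        rw [hνu]
        exact ne_top_of_le_ne_top p.fin (measure_mono (subset_univ _))
      ne := hone
      sup := fun t ht => by
        refine hν0 _ (measurableSet_val t ({0}ᶜ : Set ℕ)) fun f _ h1 => ?_
        exact h1 (hΦ0 f t ht)
      spec := hspec
      unif := hunif }
  have hthin : Thin B (B \ p.A) ν := by
    intro k η _
    have hfin : {s | s ∈ B \ p.A ∧ M (2 * e s) ≤ k ∧ k < M (2 * e s + 1)}.Finite := by
      refine Set.Subsingleton.finite ?_
      rintro s ⟨hs, hs1, hs2⟩ t ⟨ht, ht1, ht2⟩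
      have h5 := FreeAux.win_eq hM hs1 hs2 ht1 ht2
      have h6 : e s = e t := by omega
      exact he hs.1 ht.1 h6
    refine ⟨hfin.toFinset, fun s hs => ((Set.Finite.mem_toFinset _).1 hs).1, fun t ht hta => ?_⟩
    have : ν (hit (B \ p.A) t k) = 0 := by
      refine hν0 _ (measurableSet_hit (hBc.mono sdiff_subset) t k) fun f hf h1 => ?_
      obtain ⟨s, hs, hst, hsk⟩ := h1
      have h4 := hmem f hf s hs.1 hs.2
      rw [hsk] at h4
      exact hta s ((Set.Finite.mem_toFinset _).2 ⟨hs, h4.1, h4.2.1⟩) hst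
    rw [this]
    exact zero_le
  refine ⟨q, ?_, rfl, hνr, ?_, ?_⟩
  · rw [le_def]
    exact ⟨hAB, Measure.absolutelyContinuous_of_le hνr, hthin⟩
  · change p.μ univ ≤ ν univ + ε
    rw [hνu]
    refine hsum.trans (add_le_add le_rfl ?_)
    exact hGc'.trans (hδs.le.trans (min_le_left _ _))
  · intro s hs
    refine hν0 _ (measurableSet_val s (Iio N)) fun f hf h1 => ?_
    have h4 := (hmem f hf s hs.1 hs.2).1
    have h5 : Φ f s < N := h1
    have h6 : N ≤ M (2 * e s) := by rw [← hM0]; exact hM.monotone (Nat.zero_le _)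
    omega

end Pool.Agent.Lib.BSP
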