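import Pool.Agent.Lib.BSP.Free

/-!
# Module BSP.FreeSum: sums of finitely many pieces in `D` with a common domain, and their extensions

`Fine D p r ε`: `r ≤ p` is the sum of finitely many pieces of `D` below `p` which have the same domain as `r`; the marginal of `r` is `≤ p.μ` and the
mass lost is at most `ε`.

* `fine_extend`: let `(q i)`, `i : ι`, be the pieces of `r` (`ι` is nonempty because `r.μ ≠ 0`), `n` the number of indices. By `free` there are
  `q' i ≤ q i` with domain `B`, marginal `≤ (q i).μ` on `r.A`, loss `≤ δ / n`, new values `≥ K`. They are in `D` (open). `r'` is the sum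
  (`sum_cond`): `r'.μ = ∑ (q' i).μ`, `r' ≤ p` and `r' ≤ r`?? (the last one: `q' i ≤ q i`, and `q i ≤ r` because `(q i).μ ≤ r.μ`, same domain: `le_of_meas_le` with
  `le_refl r`). `r'.μ.map (rho r.A) = ∑ (q' i).μ.map (rho r.A) ≤ ∑ (q i).μ = r.μ`; then `r'.μ.map (rho p.A) = (r'.μ.map (rho r.A)).map (rho p.A) ≤
  r.μ.map (rho p.A) ≤ p.μ` (`map_rho_map`, `Measure.map_mono`). Mass: `r.μ univ = ∑ (q i).μ univ ≤ ∑ ((q' i).μ univ + δ / n) = r'.μ univ + δ`.
* `fine_trans`: if `r` is a sum of finitely many pieces of `D` as above relative to `p'`, and `p' ≤ p` with marginal `≤ p.μ` and loss `≤ δ`, then `Fine D p r (δ + ε)`.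
-/

set_option autoImplicit false

open Set MeasureTheory
open scoped ENNReal

namespace Pool.Agent.Lib.BSP

universe u

variable {T : Type u} [PartialOrder T]

/-- `r ≤ p` is a finite sum of pieces in `D`, with marginal at most `p.μ` and loss at most `ε`. -/
def Fine (D : Set (Cond T)) (p r : Cond T) (ε : ℝ≥0∞) : Prop :=
  r ≤ p ∧ (∃ (ι : Type) (_ : Fintype ι) (q : ι → Cond T), (∀ i, q i ∈ D ∧ (q i).A = r.A ∧ q i ≤ p) ∧
    r.μ = ∑ i, (q i).μ) ∧ r.μ.map (rho p.A) ≤ p.μ ∧ p.μ univ ≤ r.μ univ + ε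

namespace FreeSumAux

theorem single_le {Ω : Type u} [MeasurableSpace Ω] {ι : Type} [Fintype ι] (μ : ι → Measure Ω)
    (i : ι) : μ i ≤ ∑ j, μ j := by
  refine Measure.le_iff.2 fun E _ => ?_
  rw [Measure.finsetSum_apply]
  exact Finset.single_le_sum (f := fun j => μ j E) (fun _ _ => bot_le) (Finset.mem_univ i)

end FreeSumAux

theorem fine_extend {D : Set (Cond T)} (hD : OpenDense D) {p r : Cond T} {ε : ℝ≥0∞} (h : Fine D p r ε) {B : Set T}
    (hBc : B.Countable) (hBl : IsLowerSet B) (hB : r.A ⊆ B) (K : ℕ) {δ : ℝ≥0∞} (hδ : δ ≠ 0) :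
    ∃ r' : Cond T, Fine D p r' (ε + δ) ∧ r' ≤ r ∧ r'.A = B ∧ r'.μ.map (rho r.A) ≤ r.μ ∧
      ∀ s ∈ B \ r.A, r'.μ {f | f s < K} = 0 := by
  classical
  obtain ⟨hrp, ⟨ι, hι, q, hq, hsum⟩, hmarg, hmass⟩ := h
  have hne : Nonempty ι := by
    by_contra hcon
    have hemp : IsEmpty ι := not_nonempty_iff.1 hcon
    apply r.ne
    rw [hsum]
    simp
  have hδ' : δ / (Fintype.card ι : ℝ≥0∞) ≠ 0 := ENNReal.div_ne_zero.2 ⟨hδ, ENNReal.natCast_ne_top _⟩
  have hfree := fun i => free (q i) hBc hBl (by rw [(hq i).2.1]; exact hB) K hδ'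
  choose q' hq1 hq2 hq3 hq4 hq5 using hfree
  obtain ⟨r', hr1, hr2, hr3⟩ := sum_cond q' hq2
  have hqr : ∀ i, q i ≤ r := fun i => by
    refine le_of_meas_le (le_refl r) (hq i).2.1 ?_
    rw [hsum]
    exact FreeSumAux.single_le (fun i => (q i).μ) i
  have hmap : r'.μ.map (rho r.A) ≤ r.μ := by
    refine Measure.le_iff.2 fun E hE => ?_
    rw [Measure.map_apply (measurable_rho _) hE, hr2, hsum, Measure.finsetSum_apply,
      Measure.finsetSum_apply]
    refine Finset.sum_le_sum fun i _ => ?_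
    have h1 := hq3 i E
    rw [Measure.map_apply (measurable_rho _) hE, (hq i).2.1] at h1
    exact h1
  have hr'p : r' ≤ p := hr3 p fun i => (hq1 i).trans (hq i).2.2
  refine ⟨r', ⟨hr'p, ⟨ι, hι, q', fun i => ⟨hD.1 (q i) (hq i).1 (q' i) (hq1 i), by rw [hq2 i, hr1],
    (hq1 i).trans (hq i).2.2⟩, hr2⟩, ?_, ?_⟩, hr3 r fun i => (hq1 i).trans (hqr i), hr1, hmap, ?_⟩
  · rw [← map_rho_map (le_def.1 hrp).1 r'.μ]
    exact (Measure.map_mono hmap (measurable_rho _)).trans hmarg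
  · have h2 : r.μ univ ≤ r'.μ univ + δ := by
      rw [hr2, hsum, Measure.finsetSum_apply, Measure.finsetSum_apply]
      calc ∑ i, (q i).μ univ ≤ ∑ i, ((q' i).μ univ + δ / (Fintype.card ι : ℝ≥0∞)) :=
            Finset.sum_le_sum fun i _ => hq4 i
        _ = ∑ i, (q' i).μ univ + ∑ _i : ι, δ / (Fintype.card ι : ℝ≥0∞) := Finset.sum_add_distrib
        _ ≤ ∑ i, (q' i).μ univ + δ := by
            gcongr
            exact OrdBAux.sum_le_of _ _ fun i => le_refl _
    calc p.μ univ ≤ r.μ univ + ε := hmass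
      _ ≤ (r'.μ univ + δ) + ε := by gcongr
      _ = r'.μ univ + (ε + δ) := by rw [add_assoc, add_comm δ ε]
  · intro s hs
    rw [hr2, Measure.finsetSum_apply]
    refine Finset.sum_eq_zero fun i _ => hq5 i s ?_
    rw [(hq i).2.1]
    exact hs

theorem fine_trans {D : Set (Cond T)} {p p' r : Cond T} {ε δ : ℝ≥0∞} (h : Fine D p' r ε) (hp : p' ≤ p)
    (hm : p'.μ.map (rho p.A) ≤ p.μ) (hl : p.μ univ ≤ p'.μ univ + δ) : Fine D p r (δ + ε) := by
  obtain ⟨hrp, ⟨ι, hι, q, hq, hsum⟩, hmarg, hmass⟩ := h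
  refine ⟨hrp.trans hp, ⟨ι, hι, q, fun i => ⟨(hq i).1, (hq i).2.1, (hq i).2.2.trans hp⟩, hsum⟩, ?_, ?_⟩
  · rw [← map_rho_map (le_def.1 hp).1 r.μ]
    exact (Measure.map_mono hmarg (measurable_rho _)).trans hm
  · calc p.μ univ ≤ p'.μ univ + δ := hl
      _ ≤ (r.μ univ + ε) + δ := by gcongr
      _ = r.μ univ + (δ + ε) := by rw [add_assoc, add_comm ε δ]

end Pool.Agent.Lib.BSP
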