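import Pool.Agent.Lib.BSP.LimitX

/-!
# Module BSP.Limit: the limit measure on `T → ℕ`

`limit`. Proof. `S = ↥(⋃ n, A n)` is countable. Let `res : (T → ℕ) → (S → ℕ)` be the restriction and `ext : (S → ℕ) → (T → ℕ)` the extension by `0` (both measurable;
`ext x t = if h : t ∈ ⋃ n, A n then x ⟨t, h⟩ else 0`). Apply `limitX` to `A' n = Subtype.val ⁻¹' (A n)`, `μ' n = (μ n).map res`, `m = μ 0 univ - ∑' n, ε n`:
* `rho (A' n) (res f) = res (rho (A n) f)`, so `(μ' n).map (rho (A' n)) = ((μ n).map (rho (A n))).map res = μ' n` (`map_rho`, `hs`), and similarly for `hle`.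
* masses: `μ 0 univ ≤ μ n univ + ∑ i ∈ range n, ε i` by induction, so `m ≤ μ n univ` (`tsub_le_iff_right`, `ENNReal.sum_le_tsum`); `μ n univ ≤ μ 0 univ < ⊤` by `hle` and `map_rho_univ`.
* `ν = ν'.map ext`: `rho (A n) (ext x) = ext (rho (A' n) x)`, so `ν.map (rho (A n)) = (ν'.map (rho (A' n))).map ext ≤ (μ' n).map ext = (μ n).map (ext ∘ res) = μ n`, the last equality because `ext ∘ res = rho (⋃ n, A n)`
  and `μ n` vanishes off `A n` (`map_rho`). `ν` vanishes off `⋃ n, A n` by construction. `μ 0 univ ≤ m + ∑' n, ε n ≤ ν univ + ∑' n, ε n` (`le_tsub_add`).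
-/

set_option autoImplicit false

open Set MeasureTheory
open scoped ENNReal

namespace Pool.Agent.Lib.BSP

universe u

namespace LimitAux

variable {T : Type u}

/-- restriction to `U` -/
def res (U : Set T) (f : T → ℕ) : U → ℕ := fun s => f s.1

open scoped Classical in
/-- extension by `0` -/
noncomputable def ext0 (U : Set T) (x : U → ℕ) : T → ℕ := fun t => if h : t ∈ U then x ⟨t, h⟩ else 0

lemma ext0_mem {U : Set T} {t : T} (h : t ∈ U) (x : U → ℕ) : ext0 U x t = x ⟨t, h⟩ := by
  unfold ext0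
  rw [dif_pos h]

lemma ext0_not {U : Set T} {t : T} (h : t ∉ U) (x : U → ℕ) : ext0 U x t = 0 := by
  unfold ext0
  rw [dif_neg h]

lemma measurable_res (U : Set T) : Measurable (res U) :=
  measurable_pi_iff.2 fun s => measurable_pi_apply s.1

lemma measurable_ext0 (U : Set T) : Measurable (ext0 U) := by
  refine measurable_pi_iff.2 fun t => ?_
  by_cases h : t ∈ U
  · simp only [ext0_mem h]
    exact measurable_pi_apply _
  · simp only [ext0_not h]
    exact measurable_const

lemma res_rho (A U : Set T) (f : T → ℕ) :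
    res U (rho A f) = rho (Subtype.val ⁻¹' A : Set U) (res U f) := by
  funext s
  by_cases h : s.1 ∈ A
  · rw [rho_mem (show s ∈ (Subtype.val ⁻¹' A : Set U) from h)]
    exact rho_mem h f
  · rw [rho_not (show s ∉ (Subtype.val ⁻¹' A : Set U) from h)]
    exact rho_not h f

lemma rho_ext0 (A U : Set T) (x : U → ℕ) :
    rho A (ext0 U x) = ext0 U (rho (Subtype.val ⁻¹' A : Set U) x) := by
  funext t
  by_cases hU : t ∈ U
  · rw [ext0_mem hU]
    by_cases h : t ∈ A
    · rw [rho_mem h, ext0_mem hU]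
      exact (rho_mem (show (⟨t, hU⟩ : U) ∈ (Subtype.val ⁻¹' A : Set U) from h) x).symm
    · rw [rho_not h]
      exact (rho_not (show (⟨t, hU⟩ : U) ∉ (Subtype.val ⁻¹' A : Set U) from h) x).symm
  · rw [ext0_not hU]
    by_cases h : t ∈ A
    · rw [rho_mem h, ext0_not hU]
    · rw [rho_not h]

lemma ext0_res (U : Set T) (f : T → ℕ) : ext0 U (res U f) = rho U f := by
  funext t
  by_cases hU : t ∈ U
  · rw [ext0_mem hU, rho_mem hU]
    rfl
  · rw [ext0_not hU, rho_not hU]

lemma map_res (A U : Set T) (μ : Measure (T → ℕ)) :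
    (μ.map (res U)).map (rho (Subtype.val ⁻¹' A : Set U)) = (μ.map (rho A)).map (res U) := by
  rw [Measure.map_map (measurable_rho _) (measurable_res U),
    Measure.map_map (measurable_res U) (measurable_rho A)]
  have e : rho (Subtype.val ⁻¹' A : Set U) ∘ res U = res U ∘ rho A := by
    funext f
    exact (res_rho A U f).symm
  rw [e]

lemma map_ext0 (A U : Set T) (ν : Measure (U → ℕ)) :
    (ν.map (ext0 U)).map (rho A) = (ν.map (rho (Subtype.val ⁻¹' A : Set U))).map (ext0 U) := by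
  rw [Measure.map_map (measurable_rho _) (measurable_ext0 U),
    Measure.map_map (measurable_ext0 U) (measurable_rho _)]
  have e : rho A ∘ ext0 U = ext0 U ∘ rho (Subtype.val ⁻¹' A : Set U) := by
    funext f
    exact rho_ext0 A U f
  rw [e]

end LimitAux

open LimitAux in
theorem limit {T : Type u} (A : ℕ → Set T) (hA : ∀ n, (A n).Countable) (hm : Monotone A)
    (μ : ℕ → Measure (T → ℕ)) (h0 : μ 0 univ ≠ ⊤) (hs : ∀ n, ∀ t ∉ A n, μ n {f | f t ≠ 0} = 0)
    (hle : ∀ n, (μ (n + 1)).map (rho (A n)) ≤ μ n) (ε : ℕ → ℝ≥0∞)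
    (hε : ∀ n, μ n univ ≤ μ (n + 1) univ + ε n) :
    ∃ ν : Measure (T → ℕ), (∀ n, ν.map (rho (A n)) ≤ μ n) ∧ μ 0 univ ≤ ν univ + ∑' n, ε n ∧
      ∀ t ∉ ⋃ n, A n, ν {f | f t ≠ 0} = 0 := by
  have hUc : (⋃ n, A n).Countable := countable_iUnion hA
  have hcS : Countable ↥(⋃ n, A n) := hUc.to_subtype
  have hfin : ∀ n, μ n univ ≠ ⊤ := fun n =>
    ne_top_of_le_ne_top h0 (LimitXAux.univ_le hle n)
  have hmass : ∀ n, μ 0 univ ≤ μ n univ + ∑ i ∈ Finset.range n, ε i := by
    intro n
    induction n with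
    | zero => simp
    | succ n ih =>
      rw [Finset.sum_range_succ]
      calc μ 0 univ ≤ μ n univ + ∑ i ∈ Finset.range n, ε i := ih
        _ ≤ μ (n + 1) univ + ε n + ∑ i ∈ Finset.range n, ε i := by
            gcongr
            exact hε n
        _ = μ (n + 1) univ + (∑ i ∈ Finset.range n, ε i + ε n) := by
            rw [add_assoc, add_comm (ε n)]
  have huniv : ∀ n, (μ n).map (res (⋃ n, A n)) univ = μ n univ := by
    intro n
    rw [Measure.map_apply (measurable_res _) MeasurableSet.univ, preimage_univ]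
  obtain ⟨ν', h1, h2⟩ := limitX (S := ↥(⋃ n, A n)) (fun n => (Subtype.val ⁻¹' (A n)))
    (fun i j hij s hs => hm hij hs)
    (fun s => let ⟨n, hn⟩ := mem_iUnion.1 s.2; ⟨n, hn⟩)
    (fun n => (μ n).map (res (⋃ n, A n)))
    (fun n => by rw [huniv n]; exact hfin n)
    (fun n => by rw [map_res, map_rho (hs n)])
    (fun n => by
      rw [map_res]
      exact Measure.map_mono (hle n) (measurable_res _))
    (m := μ 0 univ - ∑' n, ε n)
    (fun n => by
      rw [huniv n]
      refine tsub_le_iff_right.2 ((hmass n).trans ?_)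
      gcongr
      exact ENNReal.sum_le_tsum _)
  refine ⟨ν'.map (ext0 (⋃ n, A n)), fun n => ?_, ?_, fun t ht => ?_⟩
  · rw [map_ext0]
    refine (Measure.map_mono (h1 n) (measurable_ext0 _)).trans (le_of_eq ?_)
    rw [Measure.map_map (measurable_ext0 _) (measurable_res _)]
    have e : ext0 (⋃ n, A n) ∘ res (⋃ n, A n) = rho (⋃ n, A n) := by
      funext f
      exact ext0_res _ f
    rw [e]
    exact map_rho (fun t ht => hs n t (fun h => ht (mem_iUnion.2 ⟨n, h⟩)))
  · have e : (ν'.map (ext0 (⋃ n, A n))) univ = ν' univ := by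
      rw [Measure.map_apply (measurable_ext0 _) MeasurableSet.univ, preimage_univ]
    rw [e]
    calc μ 0 univ ≤ μ 0 univ - ∑' n, ε n + ∑' n, ε n := le_tsub_add
      _ ≤ ν' univ + ∑' n, ε n := by gcongr
  · have hmt : MeasurableSet {f : T → ℕ | f t ≠ 0} :=
      (measurable_pi_apply t : Measurable fun f : T → ℕ => f t)
        (MeasurableSet.of_discrete (s := {n : ℕ | n ≠ 0}))
    rw [Measure.map_apply (measurable_ext0 _) hmt]
    have e : ext0 (⋃ n, A n) ⁻¹' {f : T → ℕ | f t ≠ 0} = ∅ := by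
      ext x
      simp [ext0_not ht]
    rw [e, measure_empty]

end Pool.Agent.Lib.BSP
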