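import Pool.Agent.Lib.BSP.OrdA
import Pool.Agent.Lib.BSP.Limit

/-!
# Module BSP.Fuse: the fusion lemma (L7)

`fuse`. Proof. Write `A n = (p n).A`, `μ n = (p n).μ`; `A` is monotone (`h1`, `le_def`). `limit` gives `ν` on `T → ℕ` with `ν.map (rho (A n)) ≤ μ n`, `μ 0 univ ≤ ν univ + ∑' n, c n` and `ν` vanishing off
`Aω = ⋃ n, A n`. So `0 < ν univ < ⊤`. The condition `q = (Aω, ν)`:
* `spec`: `s, t ∈ Aω` are in a common `A n`; `meas_zero_of_map` with `rho_mem_eq` and `(p n).spec`.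
* tail estimate: for `t ∉ Aω` and `K ≤ m (n + 1)`: `hitB (Aω \ A n) t K ⊆ ⋃ j ≥ n, hitB (A (j + 1) \ A j) t (m (j + 1))`, (for `s ∈ Aω \ A n` take the least `i` with `s ∈ A i`; `i = j + 1`, `j ≥ n`), and
  `ν (hitB (A (j + 1) \ A j) t (m (j + 1))) ≤ μ (j + 1) (..) ≤ c j` (`meas_le_of_map`, `rho_mem_hitB`, `h6`), so `ν (hitB (Aω \ A n) t K) ≤ ∑' i, c (i + n)`, and `∑' i, c (i + n) → 0`
  (`ENNReal.tendsto_sum_nat_add` or `tendsto_tsum_compl..`; `∑' c ≠ ⊤` by `hc`), `c n → 0` as well.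
* `unif`: given `n₀, η` choose `n` with `n₀ ≤ m n` and `c n + ∑' i, c (i + n) ≤ η`; `m (n + 1)` works: `full Aω t n₀ (m (n + 1)) ⊆ full Aω t (m n) (m (n + 1)) ⊆ full (A n) t (m n) (m (n + 1)) ∪ hitB (Aω \ A n) t (m (n + 1))`, and
  `ν (full (A n) t ..) ≤ μ n (..) ≤ c n` by `meas_le_of_map`, `rho_mem_full`, `h3`.
* `q ≤ p n`: `A n ⊆ Aω`; `ν.map (rho (A n)) ≤ μ n` gives `≪` (`Measure.absolutelyContinuous_of_le`); `Thin Aω (Aω \ A n) ν`: given `k, η` choose `j ≥ n` with `k < m (j + 1)` and `∑' i, c (i + j) ≤ η / 2`. `p j ≤ p n` gives the finite set `a ⊆ A j \ A n` for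
  `k, η / 2`; for `t ∉ Aω` above no element of `a`: `hit (Aω \ A n) t k ⊆ hit (A j \ A n) t k ∪ hitB (Aω \ A j) t (m (j + 1))`, with `ν`-measure `≤ η / 2 + η / 2`.
-/

set_option autoImplicit false

open Set MeasureTheory
open scoped ENNReal

namespace Pool.Agent.Lib.BSP

universe u

namespace FuseAux

open Filter Topology

variable {T : Type u} [PartialOrder T]

lemma full_sub {A B : Set T} {t : T} {n m : ℕ} :
    full B t n m ⊆ full A t n m ∪ hitB (B \ A) t m := by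
  intro f hf
  by_cases h : f ∈ hitB (B \ A) t m
  · exact Or.inr h
  · left
    intro k hk1 hk2
    obtain ⟨s, hs, hst, hfs⟩ := hf k hk1 hk2
    refine ⟨s, ?_, hst, hfs⟩
    by_contra hsA
    exact h ⟨s, ⟨hs, hsA⟩, hst, by rw [hfs]; exact hk2⟩

lemma hit_sub {A B C : Set T} {t : T} {k : ℕ} :
    hit (C \ A) t k ⊆ hit (B \ A) t k ∪ hit (C \ B) t k := by
  rintro f ⟨s, ⟨hsC, hsA⟩, hst, hfs⟩
  by_cases h : s ∈ B
  · exact Or.inl ⟨s, ⟨h, hsA⟩, hst, hfs⟩
  · exact Or.inr ⟨s, ⟨hsC, h⟩, hst, hfs⟩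

lemma tail_sub {A : ℕ → Set T} (hm : Monotone A) {m : ℕ → ℕ} (hmm : StrictMono m) {t : T}
    {n K : ℕ} (hK : K ≤ m (n + 1)) :
    hitB ((⋃ i, A i) \ A n) t K ⊆ ⋃ i, hitB (A (i + n + 1) \ A (i + n)) t (m (i + n + 1)) := by
  classical
  rintro f ⟨s, ⟨hs, hsn⟩, hst, hfs⟩
  have hex : ∃ i, s ∈ A i := mem_iUnion.1 hs
  have hi : s ∈ A (Nat.find hex) := Nat.find_spec hex
  have hlt : n < Nat.find hex := by
    by_contra hcon
    exact hsn (hm (not_lt.1 hcon) hi)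
  obtain ⟨d, hd⟩ := Nat.exists_eq_add_of_lt hlt
  have hd' : Nat.find hex = d + n + 1 := by omega
  have hnot : s ∉ A (d + n) := Nat.find_min hex (by omega)
  refine mem_iUnion.2 ⟨d, s, ⟨by rw [← hd']; exact hi, hnot⟩, hst, ?_⟩
  exact lt_of_lt_of_le (lt_of_lt_of_le hfs hK) (hmm.monotone (by omega))

end FuseAux

variable {T : Type u} [PartialOrder T]

open Filter Topology FuseAux in
theorem fuse (p : ℕ → Cond T) (m : ℕ → ℕ) (c : ℕ → ℝ≥0∞) (hc : ∑' n, c n < (p 0).μ univ)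
    (h1 : ∀ n, p (n + 1) ≤ p n) (h2 : ∀ n, m n < m (n + 1))
    (h3 : ∀ n, ∀ t ∉ (p n).A, (p n).μ (full (p n).A t (m n) (m (n + 1))) ≤ c n)
    (h4 : ∀ n, (p (n + 1)).μ.map (rho (p n).A) ≤ (p n).μ)
    (h5 : ∀ n, (p n).μ univ ≤ (p (n + 1)).μ univ + c n)
    (h6 : ∀ n, ∀ t ∉ (p (n + 1)).A, (p (n + 1)).μ (hitB ((p (n + 1)).A \ (p n).A) t (m (n + 1))) ≤ c n) :
    ∃ q : Cond T, ∀ n, q ≤ p n := by
  have hstep : ∀ n, (p n).A ⊆ (p (n + 1)).A := fun n => (le_def.1 (h1 n)).1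
  have hm : Monotone (fun n => (p n).A) := monotone_nat_of_le_succ hstep
  have hmm : StrictMono m := strictMono_nat_of_lt_succ h2
  have hanti : Antitone p := antitone_nat_of_succ_le h1
  have hc' : ∑' n, c n ≠ ⊤ := (hc.trans_le le_top).ne
  obtain ⟨ν, hν1, hν2, hν3⟩ := limit (fun n => (p n).A) (fun n => (p n).cnt) hm
    (fun n => (p n).μ) (p 0).fin (fun n => (p n).sup) h4 c h5
  have hνle : ν univ ≤ (p 0).μ univ := by
    have h := hν1 0 univ
    rwa [map_rho_univ] at h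
  have hνfin : ν univ ≠ ⊤ := ne_top_of_le_ne_top (p 0).fin hνle
  have hνne : ν ≠ 0 := by
    intro h0
    rw [h0] at hν2
    have h : (p 0).μ univ ≤ ∑' n, c n := by simpa using hν2
    exact absurd h (not_le.2 hc)
  set B : Set T := ⋃ n, (p n).A with hB
  have hAB : ∀ n, (p n).A ⊆ B := fun n => subset_iUnion (fun n => (p n).A) n
  have hB1 : ∀ t ∉ B, ∀ j, ν (hitB ((p (j + 1)).A \ (p j).A) t (m (j + 1))) ≤ c j := by
    intro t ht j
    have htj : t ∉ (p (j + 1)).A := fun h => ht (hAB _ h)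
    exact (meas_le_of_map (hν1 (j + 1)) (measurableSet_hitB ((p (j + 1)).cnt.mono sdiff_subset) t _)
      (fun f => rho_mem_hitB sdiff_subset t _ f)).trans (h6 j t htj)
  have htail : ∀ t ∉ B, ∀ n K, K ≤ m (n + 1) →
      ν (hitB (B \ (p n).A) t K) ≤ ∑' i, c (i + n) := by
    intro t ht n K hK
    refine (measure_mono (tail_sub hm hmm hK)).trans ?_
    refine (measure_iUnion_le _).trans ?_
    exact ENNReal.tsum_le_tsum fun i => hB1 t ht (i + n)
  have htend : Tendsto (fun n => ∑' i, c (i + n)) atTop (𝓝 0) := ENNReal.tendsto_sum_nat_add c hc'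
  have hctend : Tendsto c atTop (𝓝 0) := ENNReal.tendsto_atTop_zero_of_tsum_ne_top hc'
  have hsum : Tendsto (fun n => c n + ∑' i, c (i + n)) atTop (𝓝 0) := by
    simpa using hctend.add htend
  refine ⟨{ A := B, μ := ν, cnt := countable_iUnion fun n => (p n).cnt,
            low := isLowerSet_iUnion fun n => (p n).low, fin := hνfin, ne := hνne, sup := hν3,
            spec := ?_, unif := ?_ }, ?_⟩
  · intro s hs t ht hst
    obtain ⟨i, hi⟩ := mem_iUnion.1 hs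
    obtain ⟨j, hj⟩ := mem_iUnion.1 ht
    have hsn : s ∈ (p (max i j)).A := hm (le_max_left i j) hi
    have htn : t ∈ (p (max i j)).A := hm (le_max_right i j) hj
    exact meas_zero_of_map (Measure.absolutelyContinuous_of_le (hν1 (max i j)))
      (measurableSet_eq s t) (fun f => rho_mem_eq hsn htn f) ((p (max i j)).spec s hsn t htn hst)
  · intro n₀ η hη
    have hev : ∀ᶠ n in atTop, c n + ∑' i, c (i + n) ≤ η :=
      ENNReal.tendsto_nhds_zero.1 hsum η (pos_iff_ne_zero.2 hη)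
    obtain ⟨n, hn1, hn2⟩ := (hev.and (eventually_ge_atTop n₀)).exists
    have hnm : n₀ ≤ m n := hn2.trans (hmm.le_apply)
    refine ⟨m (n + 1), lt_of_le_of_lt hnm (h2 n), ?_⟩
    intro t ht
    have htn : t ∉ (p n).A := fun h => ht (hAB n h)
    have e1 : ν (full (p n).A t (m n) (m (n + 1))) ≤ c n :=
      (meas_le_of_map (hν1 n) (measurableSet_full (p n).cnt t _ _)
        (fun f => rho_mem_full Subset.rfl t _ _ f)).trans (h3 n t htn)
    calc ν (full B t n₀ (m (n + 1)))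
        ≤ ν (full (p n).A t (m n) (m (n + 1)) ∪ hitB (B \ (p n).A) t (m (n + 1))) :=
          measure_mono ((full_anti hnm le_rfl).trans full_sub)
      _ ≤ ν (full (p n).A t (m n) (m (n + 1))) + ν (hitB (B \ (p n).A) t (m (n + 1))) :=
          measure_union_le _ _
      _ ≤ c n + ∑' i, c (i + n) := add_le_add e1 (htail t ht n _ le_rfl)
      _ ≤ η := hn1
  · intro n
    refine le_def.2 ⟨hAB n, Measure.absolutelyContinuous_of_le (hν1 n), ?_⟩
    intro k η hη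
    have hη2 : η / 2 ≠ 0 := (ENNReal.half_pos hη).ne'
    have hev : ∀ᶠ j in atTop, ∑' i, c (i + j) ≤ η / 2 :=
      ENNReal.tendsto_nhds_zero.1 htend (η / 2) (pos_iff_ne_zero.2 hη2)
    obtain ⟨j, ⟨hj1, hj2⟩, hj3⟩ :=
      ((hev.and (eventually_ge_atTop n)).and (eventually_ge_atTop k)).exists
    have hkm : k < m (j + 1) := by
      have h := hmm.le_apply (x := j + 1)
      omega
    obtain ⟨a, ha1, ha2⟩ := (le_def.1 (hanti hj2)).2.2 k (η / 2) hη2
    refine ⟨a, fun s hs => ⟨hAB j (ha1 s hs).1, (ha1 s hs).2⟩, ?_⟩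
    intro t ht hta
    have htj : t ∉ (p j).A := fun h => ht (hAB j h)
    have e1 : ν (hit ((p j).A \ (p n).A) t k) ≤ η / 2 :=
      (meas_le_of_map (hν1 j) (measurableSet_hit ((p j).cnt.mono sdiff_subset) t _)
        (fun f => rho_mem_hit sdiff_subset t _ f)).trans (ha2 t htj hta)
    have e2 : ν (hit (B \ (p j).A) t k) ≤ η / 2 :=
      (measure_mono (hit_subset_hitB hkm)).trans ((htail t ht j _ le_rfl).trans hj1)
    calc ν (hit (B \ (p n).A) t k)
        ≤ ν (hit ((p j).A \ (p n).A) t k ∪ hit (B \ (p j).A) t k) := measure_mono hit_sub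
      _ ≤ ν (hit ((p j).A \ (p n).A) t k) + ν (hit (B \ (p j).A) t k) := measure_union_le _ _
      _ ≤ η / 2 + η / 2 := add_le_add e1 e2
      _ = η := ENNReal.add_halves η

end Pool.Agent.Lib.BSP
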