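import Pool.Agent.Lib.BSP.CopyB
import Pool.Agent.Lib.BSP.Fuse

/-!
# Module BSP.Game: player II wins the bounding game on `Cond T`

`step`: given `r : Cond T`, `m : ℕ`, `c ≠ 0` and `D` open dense, `r.unif` gives `m' > m` with `r.μ (full r.A t m m') ≤ c` for all `t ∉ r.A`, and `copies` (with `K = m'`, `η = ε = c`) gives `r'`. `Q` is the set of the pieces of
`r'` (`Fine`), finite and contained in `D`; below `r'` it is predense by `below_sum` (`r'.μ = ∑ (q i).μ`, equal domains).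

`boundingGame`: for `p : Cond T` let `c p n = p.μ univ / 4 / 2 ^ n` (nonzero, with sum `p.μ univ / 2 < p.μ univ`; `ENNReal.tsum_geometric`-like or `tsum_two_zpow..`). Choose (classically) a function `nxt : ℝ≥0∞ → Cond T × ℕ → Set (Cond T) → Cond T × ℕ × Set (Cond T)`
which satisfies the conclusion of `step` whenever `c ≠ 0` and `D` is open dense. The state of a run is
`(r, m, n, Q) : Cond T × ℕ × ℕ × Set (Cond T)`, the start is `(p, 0, 0, ∅)`, `upd p (r, m, n, Q) D = (r', m', n + 1, Q')` with `(r', m', Q') = nxt (c p n) (r, m) D`, and `σ p L = (L.foldl (upd p) (p, 0, 0, ∅)).2.2.2` (the last answer). For a run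
`D` put `st n = ((List.range n).map D).foldl (upd p) (p, 0, 0, ∅)`; `st (n + 1) = upd p (st n) (D n)` by `List.range_succ`, `List.map_append`, `List.foldl_append`. The third coordinate of `st n` is `n`. Apply `fuse` to `p n = (st n).1`, `m n = (st n).2.1`,
`c n = c p n`. The `q` obtained is below all `(st n).1`, so below `p`, and `r ≤ q` implies `r ≤ (st (n + 1)).1`, where `Q n` is predense.
-/

set_option autoImplicit false

open Set MeasureTheory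
open scoped ENNReal

namespace Pool.Agent.Lib.BSP

universe u

variable {T : Type u} [PartialOrder T]

theorem step (hT : WideTree T) {D : Set (Cond T)} (hD : OpenDense D) (r : Cond T) (m : ℕ) {c : ℝ≥0∞} (hc : c ≠ 0) :
    ∃ (r' : Cond T) (m' : ℕ) (Q : Set (Cond T)), m < m' ∧ (∀ t ∉ r.A, r.μ (full r.A t m m') ≤ c) ∧
      r' ≤ r ∧ r'.μ.map (rho r.A) ≤ r.μ ∧ r.μ univ ≤ r'.μ univ + c ∧
      (∀ t ∉ r'.A, r'.μ (hitB (r'.A \ r.A) t m') ≤ c) ∧ Q.Finite ∧ Q ⊆ D ∧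
      ∀ x ≤ r', ∃ x' ≤ x, ∃ s ∈ Q, x' ≤ s := by
  obtain ⟨m', hlt, hfull⟩ := r.unif m c hc
  obtain ⟨r', ⟨hle, ⟨ι, hι, q, hq, hμ⟩, hmarg, hmass⟩, hhit⟩ := copies hT hD r m' hc hc
  refine ⟨r', m', Set.range q, hlt, hfull, hle, hmarg, hmass, hhit, Set.finite_range q, ?_, ?_⟩
  · rintro _ ⟨i, rfl⟩
    exact (hq i).1
  · intro x hx
    obtain ⟨i, x', h1, h2⟩ := below_sum q r' (fun i => (hq i).2.1)
      (by rw [hμ]) hx
    exact ⟨x', h1, q i, ⟨i, rfl⟩, h2⟩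

/-- the error terms of the game -/
private noncomputable def ce (p : Cond T) (n : ℕ) : ℝ≥0∞ := p.μ univ / 4 / 2 ^ n

private theorem univ_ne (p : Cond T) : p.μ univ ≠ 0 := by
  intro h
  exact p.ne (Measure.measure_univ_eq_zero.1 h)

private theorem ce_ne (p : Cond T) (n : ℕ) : ce p n ≠ 0 := by
  unfold ce
  have h1 : p.μ univ / 4 ≠ 0 := by
    rw [Ne, ENNReal.div_eq_zero_iff, not_or]
    exact ⟨univ_ne p, by norm_num⟩
  rw [Ne, ENNReal.div_eq_zero_iff, not_or]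
  exact ⟨h1, ENNReal.pow_ne_top (by norm_num)⟩

private theorem tsum_ce (p : Cond T) : ∑' n, ce p n < p.μ univ := by
  have h1 : ∀ n, ce p n = p.μ univ / 4 * (2⁻¹) ^ n := by
    intro n
    unfold ce
    rw [div_eq_mul_inv (p.μ univ / 4), ENNReal.inv_pow]
  rw [tsum_congr h1, ENNReal.tsum_mul_left, ENNReal.tsum_geometric, ENNReal.one_sub_inv_two, inv_inv]
  have h2 : p.μ univ / 4 * 2 = p.μ univ / 2 := by
    have h4 : (4 : ℝ≥0∞) = 2 * 2 := by norm_num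
    rw [h4, div_eq_mul_inv, div_eq_mul_inv, ENNReal.mul_inv (Or.inl (by norm_num)) (Or.inl (by norm_num)),
      mul_assoc, mul_assoc, ENNReal.inv_mul_cancel (by norm_num) (by norm_num), mul_one]
  rw [h2]
  exact ENNReal.half_lt_self (univ_ne p) p.fin

theorem boundingGame (hT : WideTree T) : BoundingGame (Cond T) := by
  classical
  have key : ∀ (c : ℝ≥0∞) (s : Cond T × ℕ) (D : Set (Cond T)), ∃ x : Cond T × ℕ × Set (Cond T),
      c ≠ 0 → OpenDense D → (s.2 < x.2.1 ∧ (∀ t ∉ s.1.A, s.1.μ (full s.1.A t s.2 x.2.1) ≤ c) ∧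
      x.1 ≤ s.1 ∧ x.1.μ.map (rho s.1.A) ≤ s.1.μ ∧ s.1.μ univ ≤ x.1.μ univ + c ∧
      (∀ t ∉ x.1.A, x.1.μ (hitB (x.1.A \ s.1.A) t x.2.1) ≤ c) ∧ x.2.2.Finite ∧ x.2.2 ⊆ D ∧
      ∀ y ≤ x.1, ∃ y' ≤ y, ∃ s ∈ x.2.2, y' ≤ s) := by
    intro c s D
    by_cases h : c ≠ 0 ∧ OpenDense D
    · obtain ⟨r', m', Q, h'⟩ := step hT h.2 s.1 s.2 h.1
      exact ⟨(r', m', Q), fun _ _ => h'⟩
    · exact ⟨(s.1, 0, ∅), fun h1 h2 => absurd ⟨h1, h2⟩ h⟩
  choose nxt hnxt using key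
  let upd : Cond T → Cond T × ℕ × ℕ × Set (Cond T) → Set (Cond T) → Cond T × ℕ × ℕ × Set (Cond T) :=
    fun p s D => ((nxt (ce p s.2.2.1) (s.1, s.2.1) D).1, (nxt (ce p s.2.2.1) (s.1, s.2.1) D).2.1,
      s.2.2.1 + 1, (nxt (ce p s.2.2.1) (s.1, s.2.1) D).2.2)
  refine ⟨fun p L => (L.foldl (upd p) (p, 0, 0, ∅)).2.2.2, ?_⟩
  intro p D hD
  let st : ℕ → Cond T × ℕ × ℕ × Set (Cond T) :=
    fun n => ((List.range n).map D).foldl (upd p) (p, 0, 0, ∅)
  have hst : ∀ n, st (n + 1) = upd p (st n) (D n) := by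
    intro n
    show ((List.range (n + 1)).map D).foldl (upd p) (p, 0, 0, ∅) = _
    rw [List.range_succ, List.map_append, List.foldl_append]
    rfl
  have h3 : ∀ n, (st n).2.2.1 = n := by
    intro n
    induction n with
    | zero => rfl
    | succ n ih =>
      rw [hst n]
      show (st n).2.2.1 + 1 = n + 1
      rw [ih]
  have hmain : ∀ n, ((st n).2.1 < (st (n + 1)).2.1 ∧
      (∀ t ∉ (st n).1.A, (st n).1.μ (full (st n).1.A t (st n).2.1 (st (n + 1)).2.1) ≤ ce p n) ∧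
      (st (n + 1)).1 ≤ (st n).1 ∧ (st (n + 1)).1.μ.map (rho (st n).1.A) ≤ (st n).1.μ ∧
      (st n).1.μ univ ≤ (st (n + 1)).1.μ univ + ce p n ∧
      (∀ t ∉ (st (n + 1)).1.A, (st (n + 1)).1.μ (hitB ((st (n + 1)).1.A \ (st n).1.A) t (st (n + 1)).2.1) ≤ ce p n) ∧
      (st (n + 1)).2.2.2.Finite ∧ (st (n + 1)).2.2.2 ⊆ D n ∧
      ∀ y ≤ (st (n + 1)).1, ∃ y' ≤ y, ∃ s ∈ (st (n + 1)).2.2.2, y' ≤ s) := by
    intro n
    have h := hnxt (ce p n) ((st n).1, (st n).2.1) (D n) (ce_ne p n) (hD n)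
    have e1 : (st (n + 1)).1 = (nxt (ce p n) ((st n).1, (st n).2.1) (D n)).1 := by
      rw [hst n]
      show (nxt (ce p (st n).2.2.1) ((st n).1, (st n).2.1) (D n)).1 = _
      rw [h3 n]
    have e2 : (st (n + 1)).2.1 = (nxt (ce p n) ((st n).1, (st n).2.1) (D n)).2.1 := by
      rw [hst n]
      show (nxt (ce p (st n).2.2.1) ((st n).1, (st n).2.1) (D n)).2.1 = _
      rw [h3 n]
    have e3 : (st (n + 1)).2.2.2 = (nxt (ce p n) ((st n).1, (st n).2.1) (D n)).2.2 := by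
      rw [hst n]
      show (nxt (ce p (st n).2.2.1) ((st n).1, (st n).2.1) (D n)).2.2 = _
      rw [h3 n]
    rw [e1, e2, e3]
    exact h
  refine ⟨fun n => ⟨(hmain n).2.2.2.2.2.2.1, (hmain n).2.2.2.2.2.2.2.1⟩, ?_⟩
  obtain ⟨q, hq⟩ := fuse (fun n => (st n).1) (fun n => (st n).2.1) (ce p) (tsum_ce p)
    (fun n => (hmain n).2.2.1) (fun n => (hmain n).1) (fun n => (hmain n).2.1)
    (fun n => (hmain n).2.2.2.1) (fun n => (hmain n).2.2.2.2.1) (fun n => (hmain n).2.2.2.2.2.1)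
  refine ⟨q, hq 0, fun n r hr => ?_⟩
  exact (hmain n).2.2.2.2.2.2.2.2 r (hr.trans (hq (n + 1)))

end Pool.Agent.Lib.BSP
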