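import Pool.Agent.Lib.BSP.Rho

/-!
# Module BSP.LimitX: the limit measure on `S → ℕ`, `S` countable

`limitX`. Proof by Prokhorov compactness on `X = (S → ℕ)`: the measures `μ j` are tight, since
`μ j {x | b < x s} ≤ μ (n s) {x | b < x s}` with the least `n s` such that `s ∈ A (n s)`. A limit `ν` along
an ultrafilter satisfies `ν V ≤ μ n U` for `V = rho (A n) ⁻¹' U`, `U` open (portmanteau inequality for the closed set `Vᶜ`
and convergence of the masses), and `μ n` is outer regular.
-/

set_option autoImplicit false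

open Set MeasureTheory
open scoped ENNReal

namespace Pool.Agent.Lib.BSP

universe u

namespace LimitXAux

open Filter Topology
open scoped NNReal

variable {S : Type u}

lemma map_le {A : ℕ → Set S} (hm : Monotone A) {μ : ℕ → Measure (S → ℕ)}
    (hs : ∀ n, (μ n).map (rho (A n)) = μ n)
    (hle : ∀ n, (μ (n + 1)).map (rho (A n)) ≤ μ n) (n j : ℕ) :
    (μ (n + j)).map (rho (A n)) ≤ μ n := by
  induction j with
  | zero => simp only [add_zero]; exact (hs n).le
  | succ j ih =>
    have h1 : (μ (n + (j + 1))).map (rho (A n)) =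
        ((μ (n + j + 1)).map (rho (A (n + j)))).map (rho (A n)) := by
      rw [map_rho_map (hm (Nat.le_add_right n j))]
      rfl
    rw [h1]
    exact (Measure.map_mono (hle (n + j)) (measurable_rho _)).trans ih

lemma continuous_rho (A : Set S) : Continuous (rho A) := by
  classical
  rw [continuous_pi_iff]
  intro s
  by_cases h : s ∈ A
  · have : (fun f : S → ℕ => rho A f s) = fun f => f s := by
      funext f; exact rho_mem h f
    rw [this]
    exact continuous_apply s
  · have : (fun f : S → ℕ => rho A f s) = fun _ => 0 := by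
      funext f; exact rho_not h f
    rw [this]
    exact continuous_const

lemma univ_le {A : ℕ → Set S} {μ : ℕ → Measure (S → ℕ)}
    (hle : ∀ n, (μ (n + 1)).map (rho (A n)) ≤ μ n) (n : ℕ) : μ n univ ≤ μ 0 univ := by
  induction n with
  | zero => exact le_rfl
  | succ n ih =>
    refine le_trans ?_ ih
    rw [← map_rho_univ (A n) (μ (n + 1))]
    exact hle n univ

/-- the tails at one coordinate -/
lemma tail {A : ℕ → Set S} (hm : Monotone A) {μ : ℕ → Measure (S → ℕ)}
    (hs : ∀ n, (μ n).map (rho (A n)) = μ n)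
    (hle : ∀ n, (μ (n + 1)).map (rho (A n)) ≤ μ n) {s : S} {n : ℕ} (hn : s ∈ A n)
    (hmin : ∀ j < n, s ∉ A j) (b j : ℕ) : μ j {x | b < x s} ≤ μ n {x | b < x s} := by
  have hmeas : MeasurableSet {x : S → ℕ | b < x s} := measurableSet_val s {k | b < k}
  rcases Nat.lt_or_ge j n with h | h
  · have h1 : μ j {x | b < x s} ≤ μ j {x | x s ≠ 0} := by
      apply measure_mono
      intro x hx
      have hx' : b < x s := hx
      show x s ≠ 0
      omega
    have h2 : μ j {x | x s ≠ 0} = 0 := by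
      rw [← hs j]
      exact map_rho_sup (A j) (μ j) s (hmin j h)
    rw [h2] at h1
    exact h1.trans bot_le
  · obtain ⟨i, rfl⟩ := Nat.exists_eq_add_of_le h
    apply meas_le_of_map (map_le hm hs hle n i) hmeas
    intro f
    show b < rho (A n) f s ↔ b < f s
    rw [rho_mem hn]

lemma exists_bound (μ : Measure (S → ℕ)) (h : μ univ ≠ ⊤) (s : S) {ε : ℝ≥0∞} (hε : 0 < ε) :
    ∃ b : ℕ, μ {x | b < x s} ≤ ε := by
  have hmeas : ∀ b : ℕ, MeasurableSet {x : S → ℕ | b < x s} := fun b =>
    measurableSet_val s {k | b < k}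
  have hanti : Antitone (fun b : ℕ => {x : S → ℕ | b < x s}) := by
    intro b c hbc x hx
    exact lt_of_le_of_lt hbc hx
  have ht := tendsto_measure_iInter_atTop (μ := μ) (fun b => (hmeas b).nullMeasurableSet) hanti
    ⟨0, ne_top_of_le_ne_top h (measure_mono (subset_univ _))⟩
  have h0 : (⋂ b : ℕ, {x : S → ℕ | b < x s}) = ∅ := by
    ext x
    simp only [mem_iInter, mem_ofPred_eq, mem_empty_iff_false, iff_false, not_forall, not_lt]
    exact ⟨x s, le_rfl⟩
  rw [h0, measure_empty] at ht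
  have := (ht.eventually (gt_mem_nhds hε)).exists
  obtain ⟨b, hb⟩ := this
  exact ⟨b, hb.le⟩

end LimitXAux

open LimitXAux in
theorem limitX {S : Type u} [Countable S] (A : ℕ → Set S) (hm : Monotone A) (hA : ∀ s, ∃ n, s ∈ A n)
    (μ : ℕ → Measure (S → ℕ)) (h0 : ∀ n, μ n univ ≠ ⊤) (hs : ∀ n, (μ n).map (rho (A n)) = μ n)
    (hle : ∀ n, (μ (n + 1)).map (rho (A n)) ≤ μ n) {m : ℝ≥0∞} (hmass : ∀ n, m ≤ μ n univ) :
    ∃ ν : Measure (S → ℕ), (∀ n, ν.map (rho (A n)) ≤ μ n) ∧ m ≤ ν univ := by
  classical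
  open Filter Topology in
  open scoped NNReal in
  have hfin : ∀ n, IsFiniteMeasure (μ n) := fun n => ⟨lt_top_iff_ne_top.2 (h0 n)⟩
  -- least index
  have hn1 : ∀ s, s ∈ A (Nat.find (hA s)) := fun s => Nat.find_spec (hA s)
  have hn2 : ∀ s, ∀ j < Nat.find (hA s), s ∉ A j := fun s j hj => Nat.find_min (hA s) hj
  -- the numbers u k
  let u : ℕ → ℝ≥0 := fun k => 1 / ((k : ℝ≥0) + 1)
  have hu0 : ∀ k, 0 < u k := fun k => by positivity
  have hu : Tendsto u atTop (𝓝 0) := tendsto_one_div_add_atTop_nhds_zero_nat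
  have hb : ∀ k : ℕ, ∃ b : S → ℕ, ∀ j, μ j {x | ∀ s, x s ≤ b s}ᶜ ≤ (u k : ℝ≥0∞) := by
    intro k
    have huk : (u k : ℝ≥0∞) ≠ 0 := by
      rw [Ne, ENNReal.coe_eq_zero]; exact (hu0 k).ne'
    obtain ⟨δ, hδ, hsum⟩ := ENNReal.exists_pos_sum_of_countable' huk S
    choose b hb using fun s => exists_bound (μ (Nat.find (hA s))) (h0 _) s (hδ s)
    refine ⟨b, fun j => ?_⟩
    have hsub : {x : S → ℕ | ∀ s, x s ≤ b s}ᶜ ⊆ ⋃ s, {x | b s < x s} := by
      intro x hx
      simp only [mem_compl_iff, mem_ofPred_eq, not_forall, not_le] at hx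
      simpa using hx
    refine (measure_mono hsub).trans ((measure_iUnion_le _).trans ?_)
    refine le_trans ?_ hsum.le
    apply ENNReal.tsum_le_tsum
    intro s
    exact (tail hm hs hle (hn1 s) (hn2 s) (b s) j).trans (hb s)
  choose b hb using hb
  let K : ℕ → Set (S → ℕ) := fun k => {x | ∀ s, x s ≤ b k s}
  have hK : ∀ k, IsCompact (K k) := by
    intro k
    have : K k = Set.pi univ (fun s => Iic (b k s)) := by
      ext x
      simp only [K, mem_ofPred_eq, Set.mem_pi, mem_univ, true_imp_iff, mem_Iic]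
    rw [this]
    exact isCompact_univ_pi (fun s => (finite_Iic (b k s)).isCompact)
  let M : ℕ → FiniteMeasure (S → ℕ) := fun j => ⟨μ j, hfin j⟩
  have hcomp := isCompact_setOfPred_finiteMeasure_mass_le_compl_isCompact_le (u := u) (K := K)
    (M 0).mass hu hK (Or.inl inferInstance)
  have hMmem : ∀ j, M j ∈ {κ : FiniteMeasure (S → ℕ) | κ.mass ≤ (M 0).mass ∧
      ∀ n, κ (K n)ᶜ ≤ u n} := by
    intro j
    refine ⟨?_, fun k => ?_⟩
    · rw [← ENNReal.coe_le_coe, FiniteMeasure.ennreal_mass, FiniteMeasure.ennreal_mass]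
      exact univ_le hle j
    · rw [← ENNReal.coe_le_coe, FiniteMeasure.ennreal_coeFn_eq_coeFn_toMeasure]
      exact hb k j
  let F : Ultrafilter ℕ := Ultrafilter.of atTop
  have hF : (F : Filter ℕ) ≤ atTop := Ultrafilter.of_le atTop
  obtain ⟨ν, -, hν⟩ := hcomp.ultrafilter_le_nhds (F.map M) (by
    rw [le_principal_iff]
    exact Filter.mem_map.2 (Filter.Eventually.of_forall hMmem))
  have hlim : Tendsto M (F : Filter ℕ) (𝓝 ν) := hν
  have hmassl : Tendsto (fun j => μ j univ) (F : Filter ℕ) (𝓝 ((ν : Measure (S → ℕ)) univ)) := by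
    have h1 := (FiniteMeasure.continuous_mass.tendsto ν).comp hlim
    have h2 := ENNReal.tendsto_coe.2 h1
    rw [FiniteMeasure.ennreal_mass] at h2
    refine h2.congr (fun j => ?_)
    exact FiniteMeasure.ennreal_mass
  refine ⟨(ν : Measure (S → ℕ)), ?_, ge_of_tendsto' hmassl hmass⟩
  intro n
  rw [Measure.le_iff]
  intro E hE
  have := hfin n
  rw [Set.measure_eq_iInf_isOpen E (μ n)]
  refine le_iInf₂ fun U hEU => le_iInf fun hU => ?_
  refine (measure_mono hEU).trans ?_
  have hUm : MeasurableSet U := hU.measurableSet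
  rw [Measure.map_apply (measurable_rho _) hUm]
  have hV : IsOpen (rho (A n) ⁻¹' U) := hU.preimage (continuous_rho _)
  have hlimC := FiniteMeasure.limsup_measure_closed_le_of_tendsto hlim hV.isClosed_compl
  have hle2 : ∀ᶠ j in (F : Filter ℕ), μ j univ ≤ μ n U + μ j (rho (A n) ⁻¹' U)ᶜ := by
    filter_upwards [hF (eventually_ge_atTop n)] with j hj
    have h1 := measure_add_measure_compl (μ := μ j) hV.measurableSet
    rw [← h1]
    refine add_le_add ?_ le_rfl
    obtain ⟨i, rfl⟩ := Nat.exists_eq_add_of_le hj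
    rw [← Measure.map_apply (measurable_rho _) hUm]
    exact map_le hm hs hle n i U
  have h3 : (ν : Measure (S → ℕ)) univ ≤ μ n U + (ν : Measure (S → ℕ)) (rho (A n) ⁻¹' U)ᶜ := by
    rw [← hmassl.limsup_eq]
    refine (limsup_le_limsup hle2).trans ?_
    rw [limsup_const_add]
    · gcongr
      exact hlimC
    · isBoundedDefault
    · isBoundedDefault
  rw [← measure_add_measure_compl hV.measurableSet] at h3
  exact (ENNReal.add_le_add_iff_right (measure_ne_top _ _)).1 h3

end Pool.Agent.Lib.BSP
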