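import Pool.Agent.Lib.BSP.Rho

/-!
# Module BSP.OrdA: the preorder, change of measure

* `ac_delta`: `ν` finite, `ν ≪ μ` (`μ` finite): for `η ≠ 0` there is `δ ≠ 0` such that `μ E ≤ δ` implies `ν E ≤ η` for measurable `E`.
  Proof: otherwise there are measurable `E_i` with `μ E_i ≤ 2^(-i)` and `ν E_i > η`; `limsup E_i` is `μ`-null
  (`measure_limsup_atTop_eq_zero`), so `ν`-null, but `ν (limsup E_i) ≥ η` (continuity from above for the finite measure `ν`,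
  applied to `⋃ j ≥ i, E_j`). (Or use the Radon-Nikodym derivative and a Mathlib lemma such as `exists_pos_setLIntegral_lt_of_measure_lt`.)
* the preorder (transitivity = L1 of bounding_specialisation.md): `r ≤ q ≤ p`. `(r.μ.map (rho p.A)) = (r.μ.map (rho q.A)).map (rho p.A) ≪
  q.μ.map (rho p.A) ≪ p.μ`. `Thin`: given `k, η` let `δ` be from `ac_delta` for `r.μ.map (rho q.A) ≪ q.μ` and `η / 2`; `a1` from
  `r ≤ q` with `η / 2`, `a2` from `q ≤ p` with `δ`; `a = a1 ∪ a2`. `hit (r.A \ p.A) t k ⊆ hit (r.A \ q.A) t k ∪ hit (q.A \ p.A) t k`, and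
  `r.μ (hit (q.A \ p.A) t k) = r.μ.map (rho q.A) (hit ..) ≤ η / 2` as `q.μ (hit ..) ≤ δ` (`t ∉ r.A`, so `t ∉ q.A`).
* `chg`: `unif` by `ac_delta` (`δ` first, then `m` from `p.unif`).
* `chg_le`: `A \ A = ∅`, so `hit = ∅`.
-/

set_option autoImplicit false

open Set MeasureTheory
open scoped ENNReal

namespace Pool.Agent.Lib.BSP

universe u

theorem ac_delta {Ω : Type u} [MeasurableSpace Ω] {μ ν : Measure Ω} (hν : ν univ ≠ ⊤) (h : ν ≪ μ)
    {η : ℝ≥0∞} (hη : η ≠ 0) : ∃ δ : ℝ≥0∞, δ ≠ 0 ∧ ∀ E, MeasurableSet E → μ E ≤ δ → ν E ≤ η := by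
  by_contra hcon
  push Not at hcon
  have key : ∀ i : ℕ, ∃ E, MeasurableSet E ∧ μ E ≤ (2⁻¹ : ℝ≥0∞) ^ i ∧ η < ν E := by
    intro i
    exact hcon _ (pow_ne_zero _ (by simp))
  choose E hE hμ hνE using key
  have hsum : ∑' i, μ (E i) ≠ ⊤ := by
    refine ne_top_of_le_ne_top ?_ (ENNReal.tsum_le_tsum hμ)
    rw [ENNReal.tsum_geometric, ENNReal.one_sub_inv_two, inv_inv]
    exact ENNReal.ofNat_ne_top
  have h0 : μ (Filter.limsup E Filter.atTop) = 0 := measure_limsup_atTop_eq_zero hsum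
  have h1 := h h0
  have hl : Filter.limsup E Filter.atTop = ⋂ n : ℕ, ⋃ i ≥ n, E i :=
    Filter.limsup_eq_iInf_iSup_of_nat
  rw [hl] at h1
  have hfin : ∀ n : ℕ, ν (⋃ i ≥ n, E i) ≠ ⊤ := fun n => measure_ne_top_of_subset (subset_univ _) hν
  have h2 : ν (⋂ n : ℕ, ⋃ i ≥ n, E i) = ⨅ n : ℕ, ν (⋃ i ≥ n, E i) := by
    refine Antitone.measure_iInter ?_ (fun n => MeasurableSet.nullMeasurableSet ?_) ⟨0, hfin 0⟩
    · intro m n hmn
      exact biUnion_subset_biUnion_left (fun i (hi : n ≤ i) => le_trans hmn hi)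
    · exact MeasurableSet.iUnion fun i => MeasurableSet.iUnion fun _ => hE i
  have h3 : η ≤ ν (⋂ n : ℕ, ⋃ i ≥ n, E i) := by
    rw [h2]
    refine le_iInf fun n => (hνE n).le.trans (measure_mono ?_)
    exact subset_biUnion_of_mem (u := fun i => E i) (show n ∈ {i | i ≥ n} from le_refl n)
  exact hη (le_antisymm (h3.trans_eq h1) zero_le)

variable {T : Type u} [PartialOrder T]

namespace OrdAAux

theorem hit_empty (t : T) (k : ℕ) : hit (∅ : Set T) t k = ∅ := by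
  ext f
  simp [hit]

theorem thin_self (A : Set T) (μ : Measure (T → ℕ)) : Thin A (A \ A) μ := by
  intro k η _
  refine ⟨∅, by simp, fun t _ _ => ?_⟩
  rw [sdiff_self, hit_empty, measure_empty]
  exact zero_le

theorem map_hit {A D : Set T} (hD : D ⊆ A) (hc : D.Countable) (μ : Measure (T → ℕ)) (t : T) (k : ℕ) :
    μ.map (rho A) (hit D t k) = μ (hit D t k) := by
  rw [Measure.map_apply (measurable_rho A) (measurableSet_hit hc t k)]
  congr 1
  ext f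
  exact rho_mem_hit hD t k f

theorem hit_cover {P Q R : Set T} (t : T) (k : ℕ) :
    hit (R \ P) t k ⊆ hit (R \ Q) t k ∪ hit (Q \ P) t k := by
  rintro f ⟨s, ⟨hsR, hsP⟩, hst, hf⟩
  by_cases hsQ : s ∈ Q
  · exact Or.inr ⟨s, ⟨hsQ, hsP⟩, hst, hf⟩
  · exact Or.inl ⟨s, ⟨hsR, hsQ⟩, hst, hf⟩

end OrdAAux

theorem leC_refl (p : Cond T) : LeC p p := by
  refine ⟨subset_rfl, ?_, OrdAAux.thin_self _ _⟩
  rw [map_rho p.sup]

theorem leC_trans {r q p : Cond T} (h1 : LeC r q) (h2 : LeC q p) : LeC r p := by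
  classical
  obtain ⟨ha1, hb1, hc1⟩ := h1
  obtain ⟨ha2, hb2, hc2⟩ := h2
  refine ⟨ha2.trans ha1, ?_, ?_⟩
  · rw [← map_rho_map ha2 r.μ]
    exact (hb1.map (measurable_rho p.A)).trans hb2
  · intro k η hη
    have hη2 : η / 2 ≠ 0 := by
      simpa using hη
    have hfin : (r.μ.map (rho q.A)) univ ≠ ⊤ := by
      rw [map_rho_univ]
      exact r.fin
    obtain ⟨δ, hδ, hδE⟩ := ac_delta hfin hb1 hη2
    obtain ⟨a1, ha1D, ha1t⟩ := hc1 k (η / 2) hη2
    obtain ⟨a2, ha2D, ha2t⟩ := hc2 k δ hδ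
    refine ⟨a1 ∪ a2, ?_, ?_⟩
    · intro s hs
      rcases Finset.mem_union.1 hs with h | h
      · exact ⟨(ha1D s h).1, fun hp => (ha1D s h).2 (ha2 hp)⟩
      · exact ⟨ha1 (ha2D s h).1, (ha2D s h).2⟩
    · intro t ht hta
      have e1 : r.μ (hit (r.A \ q.A) t k) ≤ η / 2 :=
        ha1t t ht fun s hs => hta s (Finset.mem_union_left _ hs)
      have e2 : q.μ (hit (q.A \ p.A) t k) ≤ δ :=
        ha2t t (fun h => ht (ha1 h)) fun s hs => hta s (Finset.mem_union_right _ hs)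
      have hcq : (q.A \ p.A).Countable := q.cnt.mono sdiff_subset
      have e3 : r.μ.map (rho q.A) (hit (q.A \ p.A) t k) ≤ η / 2 :=
        hδE _ (measurableSet_hit hcq t k) e2
      rw [OrdAAux.map_hit sdiff_subset hcq] at e3
      calc r.μ (hit (r.A \ p.A) t k)
          ≤ r.μ (hit (r.A \ q.A) t k ∪ hit (q.A \ p.A) t k) :=
            measure_mono (OrdAAux.hit_cover t k)
        _ ≤ r.μ (hit (r.A \ q.A) t k) + r.μ (hit (q.A \ p.A) t k) := measure_union_le _ _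
        _ ≤ η / 2 + η / 2 := add_le_add e1 e3
        _ = η := ENNReal.add_halves η

instance : Preorder (Cond T) where
  le := LeC
  le_refl := leC_refl
  le_trans _ _ _ h1 h2 := leC_trans h1 h2

theorem le_def {q p : Cond T} : q ≤ p ↔
    p.A ⊆ q.A ∧ q.μ.map (rho p.A) ≪ p.μ ∧ Thin q.A (q.A \ p.A) q.μ := Iff.rfl

theorem unif_ac {A : Set T} (hA : A.Countable) {μ ν : Measure (T → ℕ)} (hν : ν univ ≠ ⊤) (h : ν ≪ μ)
    (hu : Unif A μ) : Unif A ν := by
  intro n η hη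
  obtain ⟨δ, hδ, hδE⟩ := ac_delta hν h hη
  obtain ⟨m, hnm, hm⟩ := hu n δ hδ
  exact ⟨m, hnm, fun t ht => hδE _ (measurableSet_full hA t n m) (hm t ht)⟩

/-- change of measure -/
def Cond.chg (p : Cond T) (ν : Measure (T → ℕ)) (h1 : ν univ ≠ ⊤) (h2 : ν ≠ 0) (h3 : ν ≪ p.μ) :
    Cond T where
  A := p.A
  μ := ν
  cnt := p.cnt
  low := p.low
  fin := h1
  ne := h2
  sup t ht := h3 (p.sup t ht)
  spec s hs t ht hst := h3 (p.spec s hs t ht hst)
  unif := unif_ac p.cnt h1 h3 p.unif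

theorem chg_le (p : Cond T) {ν : Measure (T → ℕ)} (h1 : ν univ ≠ ⊤) (h2 : ν ≠ 0) (h3 : ν ≪ p.μ) :
    p.chg ν h1 h2 h3 ≤ p := by
  refine ⟨subset_rfl, ?_, OrdAAux.thin_self _ _⟩
  change ν.map (rho p.A) ≪ p.μ
  rw [map_rho fun t ht => h3 (p.sup t ht)]
  exact h3

/-- restriction to an event -/
theorem restr_le (p : Cond T) {E : Set (T → ℕ)} (hE : p.μ E ≠ 0) :
    ∃ q : Cond T, q ≤ p ∧ q.A = p.A ∧ q.μ = p.μ.restrict E := by
  have h1 : p.μ.restrict E univ ≠ ⊤ := by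
    rw [Measure.restrict_apply_univ]
    exact measure_ne_top_of_subset (subset_univ _) p.fin
  have h2 : p.μ.restrict E ≠ 0 := by
    intro h
    exact hE (Measure.restrict_eq_zero.1 h)
  have h3 : p.μ.restrict E ≪ p.μ := Measure.restrict_le_self.absolutelyContinuous
  exact ⟨p.chg _ h1 h2 h3, chg_le p h1 h2 h3, rfl, rfl⟩

end Pool.Agent.Lib.BSP
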