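import Pool.Agent.Lib.BSP.OrdA

/-!
# Module BSP.OrdB: sums of conditions and conditions below a sum

* `sum_cond`: all `q i` have the same `A = B`. `r.μ = ∑ i, (q i).μ`. `unif`: given `n, η`, take `m i` for `q i`, `n`, `η / N` (`N` the number
  of indices) and `m = max m i` (`full_anti`). `r ≤ p` if all `q i ≤ p`: the union of the finite sets `a i` for `k`, `η / N`.
  (`Measure.map` of a finite sum: `Measure.map_add` by induction, or evaluate both sides on measurable sets.)
* `smul_cond`: scaling by `c ≠ 0, ⊤`; special case of `chg`.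
* `below_sum`: let `r ≤ s`, `s.μ ≪ ∑ i, (q i).μ`, all `(q i).A = s.A`. Put `ν = r.μ.map (rho s.A) ≪ ∑ (q i).μ`, `ν ≠ 0`. Some `i` is such
  that `ν` is not singular to `(q i).μ` (otherwise, with measurable `S i`, `ν (S i) = 0`, `(q i).μ (S i)ᶜ = 0`: the set `(⋃ S i)ᶜ` is null for the
  sum, so for `ν`, and `ν (⋃ S i) = 0`). Lebesgue decomposition of `ν` with respect to `(q i).μ` (`Measure.haveLebesgueDecomposition_add`,
  `mutuallySingular_singularPart`): a measurable `E` with `(ν.restrict E) ≪ (q i).μ` and `ν E ≠ 0`. `r'` = restriction of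
  `r` to `rho s.A ⁻¹' E` (`restr_le`). `r' ≤ q i`: `(r.μ.restrict (rho ⁻¹' E)).map rho = ν.restrict E` (`Measure.restrict_map`), `Thin` from `r ≤ s`
  because `r'.μ ≤ r.μ` and `s.A = (q i).A`.
-/

set_option autoImplicit false

open Set MeasureTheory
open scoped ENNReal

namespace Pool.Agent.Lib.BSP

universe u

variable {T : Type u} [PartialOrder T]

namespace OrdBAux

theorem sum_le_of {ι : Type} [Fintype ι] [Nonempty ι] (g : ι → ℝ≥0∞) (η : ℝ≥0∞)
    (h : ∀ i, g i ≤ η / (Fintype.card ι : ℝ≥0∞)) : ∑ i, g i ≤ η := by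
  have hN0 : (Fintype.card ι : ℝ≥0∞) ≠ 0 := by
    simp [Fintype.card_ne_zero]
  have hNt : (Fintype.card ι : ℝ≥0∞) ≠ ⊤ := ENNReal.natCast_ne_top _
  calc ∑ i, g i ≤ ∑ _i : ι, η / (Fintype.card ι : ℝ≥0∞) := Finset.sum_le_sum fun i _ => h i
    _ = (Fintype.card ι : ℝ≥0∞) * (η / (Fintype.card ι : ℝ≥0∞)) := by
        rw [Finset.sum_const, Finset.card_univ, nsmul_eq_mul]
    _ = η := ENNReal.mul_div_cancel hN0 hNt

theorem div_ne {ι : Type} [Fintype ι] {η : ℝ≥0∞} (h : η ≠ 0) :
    η / (Fintype.card ι : ℝ≥0∞) ≠ 0 :=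
  ENNReal.div_ne_zero.2 ⟨h, ENNReal.natCast_ne_top _⟩

end OrdBAux

theorem sum_cond {ι : Type} [Fintype ι] [Nonempty ι] (q : ι → Cond T) {B : Set T} (hB : ∀ i, (q i).A = B) :
    ∃ r : Cond T, r.A = B ∧ r.μ = ∑ i, (q i).μ ∧ ∀ p : Cond T, (∀ i, q i ≤ p) → r ≤ p := by
  classical
  obtain ⟨i0⟩ := (inferInstance : Nonempty ι)
  have happ : ∀ E : Set (T → ℕ), (∑ i, (q i).μ) E = ∑ i, (q i).μ E := fun E => by
    rw [Measure.finsetSum_apply]
  let r : Cond T :=
    { A := B
      μ := ∑ i, (q i).μ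
      cnt := by rw [← hB i0]; exact (q i0).cnt
      low := by rw [← hB i0]; exact (q i0).low
      fin := by
        rw [happ]
        exact ENNReal.sum_ne_top.2 fun i _ => (q i).fin
      ne := by
        intro h
        have h1 : (∑ i, (q i).μ) univ = 0 := by rw [h]; rfl
        rw [happ] at h1
        have h2 := (Finset.sum_eq_zero_iff.1 h1) i0 (Finset.mem_univ _)
        exact (q i0).ne (Measure.measure_univ_eq_zero.1 h2)
      sup := fun t ht => by
        rw [happ]
        exact Finset.sum_eq_zero fun i _ => (q i).sup t (by rw [hB i]; exact ht)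
      spec := fun s hs t ht hst => by
        rw [happ]
        exact Finset.sum_eq_zero fun i _ =>
          (q i).spec s (by rw [hB i]; exact hs) t (by rw [hB i]; exact ht) hst
      unif := by
        intro n η hη
        have h1 := fun i => (q i).unif n (η / (Fintype.card ι : ℝ≥0∞)) (OrdBAux.div_ne (ι := ι) hη)
        choose m hm using h1
        refine ⟨Finset.univ.sup m, lt_of_lt_of_le (hm i0).1 (Finset.le_sup (Finset.mem_univ i0)), ?_⟩
        intro t ht
        rw [happ]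
        refine OrdBAux.sum_le_of _ _ fun i => ?_
        have h2 := (hm i).2 t (by rw [hB i]; exact ht)
        rw [hB i] at h2
        exact le_trans (measure_mono (full_anti le_rfl (Finset.le_sup (Finset.mem_univ i)))) h2 }
  refine ⟨r, rfl, rfl, ?_⟩
  intro p hp
  have hpi := fun i => le_def.1 (hp i)
  rw [le_def]
  refine ⟨?_, ?_, ?_⟩
  · have := (hpi i0).1
    rw [hB i0] at this
    exact this
  · refine Measure.AbsolutelyContinuous.mk fun E hE h0 => ?_
    rw [Measure.map_apply (measurable_rho _) hE]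
    change (∑ i, (q i).μ) _ = 0
    rw [happ]
    refine Finset.sum_eq_zero fun i _ => ?_
    have h1 := (hpi i).2.1 h0
    rwa [Measure.map_apply (measurable_rho _) hE] at h1
  · intro k η hη
    have h1 := fun i => (hpi i).2.2 k (η / (Fintype.card ι : ℝ≥0∞)) (OrdBAux.div_ne (ι := ι) hη)
    choose a ha using h1
    refine ⟨Finset.univ.biUnion a, ?_, ?_⟩
    · intro s hs
      obtain ⟨i, -, hi⟩ := Finset.mem_biUnion.1 hs
      have h2 := (ha i).1 s hi
      rw [hB i] at h2
      exact h2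
    · intro t ht hs
      change (∑ i, (q i).μ) _ ≤ η
      rw [happ]
      refine OrdBAux.sum_le_of _ _ fun i => ?_
      have h2 := (ha i).2 t (by rw [hB i]; exact ht)
        (fun s hsi => hs s (Finset.mem_biUnion.2 ⟨i, Finset.mem_univ _, hsi⟩))
      rw [hB i] at h2
      exact h2

theorem smul_cond (p : Cond T) {c : ℝ≥0∞} (h0 : c ≠ 0) (h1 : c ≠ ⊤) :
    ∃ q : Cond T, q ≤ p ∧ q.A = p.A ∧ q.μ = c • p.μ := by
  have hf : (c • p.μ) univ ≠ ⊤ := by
    rw [Measure.smul_apply, smul_eq_mul]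
    exact ENNReal.mul_ne_top h1 p.fin
  have hn : c • p.μ ≠ 0 := by
    intro h
    have h2 : (c • p.μ) univ = 0 := by rw [h]; rfl
    rw [Measure.smul_apply, smul_eq_mul, mul_eq_zero] at h2
    rcases h2 with h2 | h2
    · exact h0 h2
    · exact p.ne (Measure.measure_univ_eq_zero.1 h2)
  have ha : c • p.μ ≪ p.μ := Measure.smul_absolutelyContinuous
  exact ⟨p.chg (c • p.μ) hf hn ha, chg_le p hf hn ha, rfl, rfl⟩

/-- `Thin` and `≪` are inherited by smaller measures. -/
theorem le_of_meas_le {p q r : Cond T} (h : q ≤ p) (hA : r.A = q.A) (hμ : r.μ ≤ q.μ) : r ≤ p := by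
  obtain ⟨h1, h2, h3⟩ := le_def.1 h
  rw [le_def]
  refine ⟨by rw [hA]; exact h1, ?_, ?_⟩
  · exact (Measure.absolutelyContinuous_of_le (Measure.map_mono hμ (measurable_rho _))).trans h2
  · rw [hA]
    intro k η hη
    obtain ⟨a, ha1, ha2⟩ := h3 k η hη
    exact ⟨a, ha1, fun t ht hs => le_trans (hμ _) (ha2 t ht hs)⟩

theorem below_sum {ι : Type} [Fintype ι] (q : ι → Cond T) (s : Cond T) (hA : ∀ i, (q i).A = s.A)
    (hs : s.μ ≪ ∑ i, (q i).μ) {r : Cond T} (hr : r ≤ s) : ∃ i, ∃ r', r' ≤ r ∧ r' ≤ q i := by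
  classical
  obtain ⟨h1, h2, h3⟩ := le_def.1 hr
  set ν : Measure (T → ℕ) := r.μ.map (rho s.A) with hν
  have hac : ν ≪ ∑ i, (q i).μ := h2.trans hs
  have hνu : ν univ = r.μ univ := map_rho_univ _ _
  have hν0 : ν ≠ 0 := by
    intro h
    have h4 : ν univ = 0 := by rw [h]; rfl
    rw [hνu] at h4
    exact r.ne (Measure.measure_univ_eq_zero.1 h4)
  have : IsFiniteMeasure ν := ⟨by rw [hνu]; exact lt_top_iff_ne_top.2 r.fin⟩
  have : ∀ i, IsFiniteMeasure (q i).μ := fun i => ⟨lt_top_iff_ne_top.2 (q i).fin⟩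
  have hex : ∃ i, ¬ ν ⟂ₘ (q i).μ := by
    by_contra hcon
    push Not at hcon
    apply hν0
    refine Measure.eq_zero_of_absolutelyContinuous_of_mutuallySingular hac ?_
    rw [← Measure.sum_fintype]
    exact Measure.MutuallySingular.sum_right.2 hcon
  obtain ⟨i, hi⟩ := hex
  have hms : (ν.singularPart (q i).μ) ⟂ₘ (q i).μ := Measure.mutuallySingular_singularPart _ _
  obtain ⟨S, hS, hS1, hS2⟩ := hms
  have hdec : ν = ν.singularPart (q i).μ + (q i).μ.withDensity (ν.rnDeriv (q i).μ) :=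
    Measure.haveLebesgueDecomposition_add _ _
  have hνS : ν S ≠ 0 := fun h => hi ⟨S, hS, h, hS2⟩
  have hacS : ν.restrict S ≪ (q i).μ := by
    refine Measure.AbsolutelyContinuous.mk fun E hE h0 => ?_
    rw [Measure.restrict_apply hE, hdec, Measure.add_apply]
    have h5 : (ν.singularPart (q i).μ) (E ∩ S) = 0 := measure_mono_null Set.inter_subset_right hS1
    have h6 : ((q i).μ.withDensity (ν.rnDeriv (q i).μ)) (E ∩ S) = 0 :=
      withDensity_absolutelyContinuous _ _ (measure_mono_null Set.inter_subset_left h0)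
    rw [h5, h6, add_zero]
  have hrE : r.μ (rho s.A ⁻¹' S) ≠ 0 := by
    rw [← Measure.map_apply (measurable_rho _) hS]
    exact hνS
  obtain ⟨r', hr1, hr2, hr3⟩ := restr_le r hrE
  refine ⟨i, r', hr1, ?_⟩
  rw [le_def]
  refine ⟨?_, ?_, ?_⟩
  · rw [hA i, hr2]
    exact h1
  · rw [hA i, hr3, ← Measure.restrict_map (measurable_rho _) hS]
    exact hacS
  · rw [hA i, hr2, hr3]
    intro k η hη
    obtain ⟨a, ha1, ha2⟩ := h3 k η hη
    exact ⟨a, ha1, fun t ht hst => le_trans (Measure.restrict_le_self _) (ha2 t ht hst)⟩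

end Pool.Agent.Lib.BSP
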