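import Pool.Agent.Lib.BSP.Defs

/-!
# Module BSP.Rho: restriction maps and measurability

All statements are elementary.

* `measurable_rho`: `measurable_pi_iff`; each coordinate is a coordinate projection or constant.
* `rho_ae`: the class of measurable `E` such that `f ∈ E ↔ rho A f ∈ E` for `μ`-almost all `f` is a sigma algebra containing the
  coordinate events `{f | f t ∈ S}` (for `t ∈ A` trivial, for `t ∉ A` both `f t = 0` and `rho A f t = 0` almost surely).
  Use `MeasurableSpace.pi = ⨆ t, comap (eval t)`, `MeasurableSpace.induction_on_inter` or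
  `MeasurableSpace.generateFrom_induction`, `MeasurableSpace.measurableSet_iSup`.
* `map_rho`: `Measure.ext`, `Measure.map_apply`, `measure_congr` with `rho_ae`.
* measurability of `full`, `hit`, `hitB`: countable unions and intersections of `{f | f s = k}`, `{f | f s < K}`.
* `meas_le_of_map`: for an event `E` which only depends on `A` (`rho A ⁻¹' E = E`), if `ν.map (rho A) ≤ μ`, then `ν E ≤ μ E`.
-/

set_option autoImplicit false

open Set MeasureTheory
open scoped ENNReal

namespace Pool.Agent.Lib.BSP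

universe u

section

variable {T : Type u}

theorem rho_mem {A : Set T} {t : T} (h : t ∈ A) (f : T → ℕ) : rho A f t = f t := by
  simp [rho, h]

theorem rho_not {A : Set T} {t : T} (h : t ∉ A) (f : T → ℕ) : rho A f t = 0 := by
  simp [rho, h]

theorem measurable_rho (A : Set T) : Measurable (rho A) := by
  refine measurable_pi_iff.2 fun t => ?_
  by_cases h : t ∈ A
  · simp only [rho_mem h]
    exact measurable_pi_apply t
  · simp only [rho_not h]
    exact measurable_const

theorem rho_rho {A B : Set T} (h : A ⊆ B) (f : T → ℕ) : rho A (rho B f) = rho A f := by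
  funext t
  by_cases ht : t ∈ A
  · rw [rho_mem ht, rho_mem ht, rho_mem (h ht)]
  · rw [rho_not ht, rho_not ht]

theorem rho_rho' {A B : Set T} (h : A ⊆ B) (f : T → ℕ) : rho B (rho A f) = rho A f := by
  funext t
  by_cases ht : t ∈ B
  · rw [rho_mem ht]
  · rw [rho_not ht, rho_not (fun h' => ht (h h'))]

theorem rho_ae {A : Set T} {μ : Measure (T → ℕ)} (h : ∀ t ∉ A, μ {f | f t ≠ 0} = 0) {E : Set (T → ℕ)}
    (hE : MeasurableSet E) : ∀ᵐ f ∂μ, (rho A f ∈ E ↔ f ∈ E) := by
  have key : (MeasurableSpace.pi : MeasurableSpace (T → ℕ)) =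
      MeasurableSpace.generateFrom {s | ∃ t : T, ∃ S : Set ℕ, s = {f : T → ℕ | f t ∈ S}} := by
    refine le_antisymm ?_ ?_
    · refine iSup_le fun t => ?_
      rintro s ⟨S, _, rfl⟩
      exact MeasurableSpace.measurableSet_generateFrom ⟨t, S, rfl⟩
    · refine MeasurableSpace.generateFrom_le ?_
      rintro s ⟨t, S, rfl⟩
      exact measurable_pi_apply t (MeasurableSet.of_discrete (s := S))
  have hE' : MeasurableSet[MeasurableSpace.generateFrom
      {s | ∃ t : T, ∃ S : Set ℕ, s = {f : T → ℕ | f t ∈ S}}] E := by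
    rw [← key]; exact hE
  refine MeasurableSpace.generateFrom_induction
    (p := fun s _ => ∀ᵐ f ∂μ, (rho A f ∈ s ↔ f ∈ s)) _ ?_ ?_ ?_ ?_ E hE'
  · rintro s ⟨t, S, rfl⟩ _
    by_cases ht : t ∈ A
    · exact Filter.Eventually.of_forall fun f => by simp only [mem_ofPred_eq, rho_mem ht]
    · have h0 : ∀ᵐ f ∂μ, f t = 0 := by
        rw [ae_iff]
        exact h t ht
      filter_upwards [h0] with f hf
      simp only [rho_not ht, hf]
  · exact Filter.Eventually.of_forall fun f => by simp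
  · intro s _ hs
    filter_upwards [hs] with f hf
    simp only [mem_compl_iff, hf]
  · intro s _ hs
    have := ae_all_iff.2 hs
    filter_upwards [this] with f hf
    simp only [mem_iUnion, hf]

theorem map_rho {A : Set T} {μ : Measure (T → ℕ)} (h : ∀ t ∉ A, μ {f | f t ≠ 0} = 0) :
    μ.map (rho A) = μ := by
  ext E hE
  rw [Measure.map_apply (measurable_rho A) hE]
  refine measure_congr ?_
  filter_upwards [rho_ae h hE] with f hf
  exact propext hf

theorem map_rho_map {A B : Set T} (h : A ⊆ B) (μ : Measure (T → ℕ)) :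
    (μ.map (rho B)).map (rho A) = μ.map (rho A) := by
  rw [Measure.map_map (measurable_rho A) (measurable_rho B)]
  congr 1
  funext f
  exact rho_rho h f

/-- the image under `rho A` vanishes off `A` -/
theorem map_rho_sup (A : Set T) (μ : Measure (T → ℕ)) : ∀ t ∉ A, μ.map (rho A) {f | f t ≠ 0} = 0 := by
  intro t ht
  have hm : MeasurableSet {f : T → ℕ | f t ≠ 0} :=
    (measurable_pi_apply t : Measurable fun f : T → ℕ => f t)
      (MeasurableSet.of_discrete (s := {n : ℕ | n ≠ 0}))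
  rw [Measure.map_apply (measurable_rho A) hm]
  have : rho A ⁻¹' {f : T → ℕ | f t ≠ 0} = ∅ := by
    ext f
    simp [rho_not ht]
  rw [this, measure_empty]

theorem map_rho_univ (A : Set T) (μ : Measure (T → ℕ)) : μ.map (rho A) univ = μ univ := by
  rw [Measure.map_apply (measurable_rho A) MeasurableSet.univ, preimage_univ]

theorem meas_le_of_map {A : Set T} {μ ν : Measure (T → ℕ)} (h : ν.map (rho A) ≤ μ) {E : Set (T → ℕ)}
    (hE : MeasurableSet E) (hA : ∀ f, rho A f ∈ E ↔ f ∈ E) : ν E ≤ μ E := by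
  have h1 := h E
  rw [Measure.map_apply (measurable_rho A) hE] at h1
  have h2 : rho A ⁻¹' E = E := by
    ext f
    exact hA f
  rwa [h2] at h1

theorem meas_zero_of_map {A : Set T} {μ ν : Measure (T → ℕ)} (h : ν.map (rho A) ≪ μ) {E : Set (T → ℕ)}
    (hE : MeasurableSet E) (hA : ∀ f, rho A f ∈ E ↔ f ∈ E) (h0 : μ E = 0) : ν E = 0 := by
  have h1 := h h0
  rw [Measure.map_apply (measurable_rho A) hE] at h1
  have h2 : rho A ⁻¹' E = E := by
    ext f
    exact hA f
  rwa [h2] at h1

theorem measurableSet_eq (s t : T) : MeasurableSet {f : T → ℕ | f s = f t} :=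
  measurableSet_eq_fun (measurable_pi_apply s) (measurable_pi_apply t)

theorem measurableSet_val (s : T) (S : Set ℕ) : MeasurableSet {f : T → ℕ | f s ∈ S} :=
  measurable_pi_apply s (MeasurableSet.of_discrete (s := S))

end

section

variable {T : Type u} [PartialOrder T]

theorem measurableSet_full {A : Set T} (hA : A.Countable) (t : T) (n m : ℕ) :
    MeasurableSet (full A t n m) := by
  have : full A t n m = ⋂ k : ℕ, ⋂ _ : n ≤ k, ⋂ _ : k < m, ⋃ s ∈ {s | s ∈ A ∧ s < t},
      {f : T → ℕ | f s ∈ ({k} : Set ℕ)} := by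
    ext f
    simp [full, and_assoc]
  rw [this]
  refine MeasurableSet.iInter fun k => MeasurableSet.iInter fun _ => MeasurableSet.iInter fun _ => ?_
  exact MeasurableSet.biUnion (hA.mono fun s hs => hs.1) fun s _ => measurableSet_val s _

theorem measurableSet_hit {D : Set T} (hD : D.Countable) (t : T) (k : ℕ) : MeasurableSet (hit D t k) := by
  have : hit D t k = ⋃ s ∈ {s | s ∈ D ∧ s < t}, {f : T → ℕ | f s ∈ ({k} : Set ℕ)} := by
    ext f
    simp [hit, and_assoc]
  rw [this]
  exact MeasurableSet.biUnion (hD.mono fun s hs => hs.1) fun s _ => measurableSet_val s _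

theorem measurableSet_hitB {D : Set T} (hD : D.Countable) (t : T) (K : ℕ) :
    MeasurableSet (hitB D t K) := by
  have : hitB D t K = ⋃ s ∈ {s | s ∈ D ∧ s < t}, {f : T → ℕ | f s ∈ {k : ℕ | k < K}} := by
    ext f
    simp [hitB, and_assoc]
  rw [this]
  exact MeasurableSet.biUnion (hD.mono fun s hs => hs.1) fun s _ => measurableSet_val s _

theorem rho_mem_full {A B : Set T} (h : A ⊆ B) (t : T) (n m : ℕ) (f : T → ℕ) :
    rho B f ∈ full A t n m ↔ f ∈ full A t n m := by
  constructor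
  · intro hf k h1 h2
    obtain ⟨s, hs, hst, e⟩ := hf k h1 h2
    exact ⟨s, hs, hst, by rwa [rho_mem (h hs)] at e⟩
  · intro hf k h1 h2
    obtain ⟨s, hs, hst, e⟩ := hf k h1 h2
    exact ⟨s, hs, hst, by rwa [rho_mem (h hs)]⟩

theorem rho_mem_hit {D B : Set T} (h : D ⊆ B) (t : T) (k : ℕ) (f : T → ℕ) :
    rho B f ∈ hit D t k ↔ f ∈ hit D t k := by
  constructor
  · rintro ⟨s, hs, hst, e⟩
    exact ⟨s, hs, hst, by rwa [rho_mem (h hs)] at e⟩
  · rintro ⟨s, hs, hst, e⟩
    exact ⟨s, hs, hst, by rwa [rho_mem (h hs)]⟩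

theorem rho_mem_hitB {D B : Set T} (h : D ⊆ B) (t : T) (K : ℕ) (f : T → ℕ) :
    rho B f ∈ hitB D t K ↔ f ∈ hitB D t K := by
  constructor
  · rintro ⟨s, hs, hst, e⟩
    exact ⟨s, hs, hst, by rwa [rho_mem (h hs)] at e⟩
  · rintro ⟨s, hs, hst, e⟩
    exact ⟨s, hs, hst, by rwa [rho_mem (h hs)]⟩

theorem rho_mem_eq {A : Set T} {s t : T} (hs : s ∈ A) (ht : t ∈ A) (f : T → ℕ) :
    rho A f ∈ {f : T → ℕ | f s = f t} ↔ f ∈ {f : T → ℕ | f s = f t} := by
  simp only [mem_ofPred_eq, rho_mem hs, rho_mem ht]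

theorem hitB_eq (D : Set T) (t : T) (K : ℕ) : hitB D t K = ⋃ k ∈ Finset.range K, hit D t k := by
  ext f
  simp only [hitB, hit, mem_ofPred_eq, mem_iUnion, Finset.mem_range, exists_prop]
  constructor
  · rintro ⟨s, hs, hst, e⟩
    exact ⟨f s, e, s, hs, hst, rfl⟩
  · rintro ⟨k, hk, s, hs, hst, e⟩
    exact ⟨s, hs, hst, by rwa [e]⟩

theorem hitB_mono {D : Set T} {t : T} {K K' : ℕ} (h : K ≤ K') : hitB D t K ⊆ hitB D t K' := by
  rintro f ⟨s, hs, hst, e⟩
  exact ⟨s, hs, hst, e.trans_le h⟩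

theorem hitB_union (D D' : Set T) (t : T) (K : ℕ) : hitB (D ∪ D') t K = hitB D t K ∪ hitB D' t K := by
  ext f
  simp only [hitB, mem_ofPred_eq, mem_union]
  constructor
  · rintro ⟨s, hs | hs, hst, e⟩
    · exact Or.inl ⟨s, hs, hst, e⟩
    · exact Or.inr ⟨s, hs, hst, e⟩
  · rintro (⟨s, hs, hst, e⟩ | ⟨s, hs, hst, e⟩)
    · exact ⟨s, Or.inl hs, hst, e⟩
    · exact ⟨s, Or.inr hs, hst, e⟩

theorem hit_subset_hitB {D : Set T} {t : T} {k K : ℕ} (h : k < K) : hit D t k ⊆ hitB D t K := by
  rintro f ⟨s, hs, hst, e⟩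
  exact ⟨s, hs, hst, by rwa [e]⟩

theorem full_anti {A : Set T} {t : T} {n n' m m' : ℕ} (h : n ≤ n') (h' : m' ≤ m) :
    full A t n m ⊆ full A t n' m' :=
  fun _ hf k h1 h2 => hf k (h.trans h1) (h2.trans_le h')

theorem full_mono_left {A B : Set T} (h : A ⊆ B) {t : T} {n m : ℕ} : full A t n m ⊆ full B t n m := by
  intro f hf k h1 h2
  obtain ⟨s, hs, hst, e⟩ := hf k h1 h2
  exact ⟨s, h hs, hst, e⟩

end

end Pool.Agent.Lib.BSP
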