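import Mathlib

/-!
# Module BSP.Stmt: the definitions used in the statement (a bounding specialisation poset, MP_50703a_lc)
-/

set_option autoImplicit false

open Set

namespace Pool.Agent.Lib.BSP

universe u

/-- The hypotheses on `T`: the predecessors of a node form a countable chain, every chain is countable. -/
structure WideTree (T : Type u) [PartialOrder T] : Prop where
  comp : ∀ t r s : T, r < t → s < t → r < s ∨ r = s ∨ s < r
  cnt : ∀ t : T, (Iio t).Countable
  nochain : ∀ C : Set T, IsChain (· ≤ ·) C → C.Countable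

/-- `D` is open and dense -/
def OpenDense {P : Type u} [Preorder P] (D : Set P) : Prop :=
  (∀ p ∈ D, ∀ q, q ≤ p → q ∈ D) ∧ ∀ p, ∃ q ≤ p, q ∈ D

/-- Player II wins the bounding game on `P`: player I plays `p` and then open dense sets `D 0, D 1, ...`; player II
answers `D n` immediately by a finite subset `Q n` of `D n` (given by the strategy `σ`, which only knows `p` and
`D 0, ..., D n`), and there is `q ≤ p` such that every `Q n` is predense below `q`. -/
def BoundingGame (P : Type u) [Preorder P] : Prop :=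
  ∃ σ : P → List (Set P) → Set P, ∀ p : P, ∀ D : ℕ → Set P, (∀ n, OpenDense (D n)) →
    (∀ n, (σ p ((List.range (n + 1)).map D)).Finite ∧ σ p ((List.range (n + 1)).map D) ⊆ D n) ∧
    ∃ q ≤ p, ∀ n, ∀ r ≤ q, ∃ r' ≤ r, ∃ s ∈ σ p ((List.range (n + 1)).map D), r' ≤ s

/-- `F t n` is the set of conditions which force `f t = n`, where `f` is a name of a function `T → ℕ` which is injective
on chains. -/
def Specialises {T : Type u} [PartialOrder T] {P : Type u} [Preorder P] (F : T → ℕ → Set P) : Prop :=
  (∀ t n, ∀ p ∈ F t n, ∀ q, q ≤ p → q ∈ F t n) ∧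
  (∀ t, ∀ p : P, ∃ q ≤ p, ∃ n, q ∈ F t n) ∧
  (∀ t m n, ∀ p, p ∈ F t m → p ∈ F t n → m = n) ∧
  (∀ s t m n, s < t → ∀ p, p ∈ F s m → p ∈ F t n → m ≠ n)

end Pool.Agent.Lib.BSP
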